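import Pool.Agent.Helper63.SAND.Defs

/-!
Independence of the functions `x^α y₀^(b-i) y₁^i` below the representation degree.
-/

open MvPolynomial Filter Topology
open scoped LinearAlgebra.Projectivization

namespace Pool.Agent.Helper63.SAND

open Pool.Agent.Helper90.KSC

/-! ### INDEP -/

section Indep

variable {K : Type*} [Field K] {Ω W : Type*}

private theorem indep_mul (a : Ω → W → K) (ha : PrimeH a) {P Q : MvPolynomial W K} {i j : ℕ}
    (hP : P.IsHomogeneous i) (hQ : Q.IsHomogeneous j) (hP0 : ¬ Van a P) (hQ0 : ¬ Van a Q) :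
    ¬ Van a (P * Q) := fun h => (ha P Q i j hP hQ h).elim hP0 hQ0

private theorem indep_prod [Nonempty Ω] (a : Ω → W → K) (ha : PrimeH a) {ι : Type*}
    (s : Finset ι) (D : ι → MvPolynomial W K) (d : ℕ) (hD : ∀ i, (D i).IsHomogeneous d)
    (h0 : ∀ i, ¬ Van a (D i)) : ¬ Van a (∏ i ∈ s, D i) := by
  classical
  induction s using Finset.induction_on with
  | empty =>
    intro h
    have := h (Classical.arbitrary Ω)
    simp at this
  | insert i s hi ih =>
    rw [Finset.prod_insert hi]
    exact indep_mul a ha (hD i)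
      (IsHomogeneous.prod s D (fun _ => d) fun i _ => hD i) (h0 i) ih

/-- The relation for one coordinate. -/
private theorem indep_one {W' T : Type*} (a : Ω → W → K) (ha : PrimeH a)
    (c₀ : ℕ) (Θ : MvPolynomial W K) (hΘ : IsCond a c₀ Θ) (y : Ω → W' → K)
    (e : ℕ) (Y : T → W' → MvPolynomial W K) (hY : LocF a y e Y) (b₁ b : ℕ) (t : T) (w₀ w₁ : W')
    (h0 : ¬ Van a (Y t w₀)) (P : ℕ → MvPolynomial W K) (hP : ∀ i, (P i).IsHomogeneous b₁)
    (hrel : ∀ x, ∑ i ∈ Finset.range (b + 1),
      eval (a x) (P i) * y x w₀ ^ (b - i) * y x w₁ ^ i = 0)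
    (hne : ∃ i ≤ b, ¬ Van a (P i)) :
    ∃ D Q : MvPolynomial W K, D.IsHomogeneous (b₁ + c₀) ∧ Q.IsHomogeneous (b₁ + c₀) ∧
      ¬ Van a D ∧ ∀ x, eval (a x) D * eval (a x) (Y t w₁) = eval (a x) Q * eval (a x) (Y t w₀) := by
  classical
  obtain ⟨x₀, hx₀⟩ : ∃ x, eval (a x) (Y t w₀) ≠ 0 := by
    by_contra h
    push Not at h
    exact h0 h
  -- the largest index
  obtain ⟨k, hkb, hk, hmax⟩ : ∃ k ≤ b, ¬ Van a (P k) ∧ ∀ i ≤ b, k < i → Van a (P i) := by
    obtain ⟨i₀, hi₀, hi₁⟩ := hne
    refine ⟨Nat.findGreatest (fun i => ¬ Van a (P i)) b, Nat.findGreatest_le b,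
      Nat.findGreatest_spec (P := fun i => ¬ Van a (P i)) hi₀ hi₁, fun i hi hki => ?_⟩
    exact not_not.1 (Nat.findGreatest_is_greatest (P := fun i => ¬ Van a (P i)) hki hi)
  set S : MvPolynomial W K := ∑ i ∈ Finset.range (k + 1), P i * Y t w₀ ^ (k - i) * Y t w₁ ^ i
    with hS
  have hSh : S.IsHomogeneous (b₁ + k * e) := by
    refine IsHomogeneous.sum _ _ _ fun i hi => ?_
    rw [Finset.mem_range] at hi
    have h1 := ((hP i).mul ((hY.1 t w₀).pow (k - i))).mul ((hY.1 t w₁).pow i)
    have h2 : b₁ + e * (k - i) + e * i = b₁ + k * e := by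
      have : k - i + i = k := by omega
      rw [add_assoc, ← mul_add, this, mul_comm]
    rw [h2] at h1
    exact h1
  have hSv : Van a S := by
      have hall : Van a (Y t w₀ ^ (b - k) * S) := by
        intro x
        obtain ⟨c, hc⟩ := hY.2.1 t x
        rw [hS, Finset.mul_sum, map_sum]
        have h2 : ∑ i ∈ Finset.range (k + 1),
            eval (a x) (Y t w₀ ^ (b - k) * (P i * Y t w₀ ^ (k - i) * Y t w₁ ^ i)) =
            c ^ b * ∑ i ∈ Finset.range (b + 1),
              eval (a x) (P i) * y x w₀ ^ (b - i) * y x w₁ ^ i := by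
          rw [Finset.mul_sum]
          rw [← Finset.sum_subset (Finset.range_mono (Nat.succ_le_succ hkb))
            (f := fun i => c ^ b * (eval (a x) (P i) * y x w₀ ^ (b - i) * y x w₁ ^ i))]
          · refine Finset.sum_congr rfl fun i hi => ?_
            rw [Finset.mem_range] at hi
            simp only [map_mul, map_pow, hc]
            have h3 : c ^ b = c ^ (b - k) * c ^ (k - i) * c ^ i := by
              rw [← pow_add, ← pow_add]
              congr 1
              omega
            have h4 : y x w₀ ^ (b - i) = y x w₀ ^ (b - k) * y x w₀ ^ (k - i) := by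
              rw [← pow_add]
              congr 1
              omega
            rw [h3, h4, mul_pow, mul_pow, mul_pow]
            ring
          · intro i hi hi'
            rw [Finset.mem_range] at hi hi'
            rw [hmax i (by omega) (by omega) x]
            ring
        rw [h2, hrel x, mul_zero]
      rcases ha _ _ _ _ ((hY.1 t w₀).pow (b - k)) hSh hall with h | h
      · exact absurd (h x₀) (by rw [map_pow]; exact pow_ne_zero _ hx₀)
      · exact h
  -- k ≥ 1
  have hk1 : 1 ≤ k := by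
    by_contra hcon
    have hk0 : k = 0 := by omega
    apply hk
    intro x
    have := hSv x
    rw [hS, hk0] at this
    simpa [hk0] using this
  -- the integral relation
  set A : ℕ → MvPolynomial W K := fun j =>
    if 1 ≤ j ∧ j ≤ k then P (k - j) * P k ^ (j - 1) else 0 with hA
  have hAh : ∀ j, (A j).IsHomogeneous (j * b₁) := by
    intro j
    simp only [hA]
    split_ifs with hj
    · have h1 := (hP (k - j)).mul ((hP k).pow (j - 1))
      have h2 : b₁ + b₁ * (j - 1) = j * b₁ := by
        obtain ⟨i, rfl⟩ : ∃ i, j = i + 1 := ⟨j - 1, by omega⟩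
        rw [Nat.add_sub_cancel]
        ring
      rwa [h2] at h1
    · exact isHomogeneous_zero _ _ _
  obtain ⟨Q, hQh, hQ⟩ := hΘ.2.2 b₁ e k (P k * Y t w₁) (Y t w₀) A hk1 ((hP k).mul (hY.1 t w₁))
    (hY.1 t w₀) h0 hAh (by
      intro x
      have h1 : (P k * Y t w₁) ^ k + ∑ i ∈ Finset.range k,
          A (i + 1) * Y t w₀ ^ (i + 1) * (P k * Y t w₁) ^ (k - 1 - i) = P k ^ (k - 1) * S := by
        rw [hS, Finset.mul_sum, Finset.sum_range_succ, add_comm]
        congr 1
        · rw [← Finset.sum_range_reflect]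
          refine Finset.sum_congr rfl fun i hi => ?_
          rw [Finset.mem_range] at hi
          have h2 : A (k - 1 - i + 1) = P i * P k ^ (k - 1 - i) := by
            simp only [hA]
            rw [if_pos (by omega), Nat.add_sub_cancel]
            congr 2
            omega
          have h3 : k - 1 - i + 1 = k - i := by omega
          have h4 : k - 1 - (k - 1 - i) = i := by omega
          have h5 : P k ^ (k - 1) = P k ^ (k - 1 - i) * P k ^ i := by
            rw [← pow_add]
            congr 1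
            omega
          rw [h2, h3, h4, h5, mul_pow]
          ring
        · have h5 : P k ^ k = P k ^ (k - 1) * P k := by
            rw [← pow_succ]
            congr 1
            omega
          rw [mul_pow, h5, Nat.sub_self, pow_zero]
          ring
      rw [h1, map_mul, hSv x, mul_zero])
  refine ⟨Θ * P k, Q, ?_, hQh, indep_mul a ha hΘ.1 (hP k) hΘ.2.1 hk, fun x => ?_⟩
  · have h1 := hΘ.1.mul (hP k)
    rwa [add_comm] at h1
  · have h1 := hQ x
    rw [map_sub, sub_eq_zero] at h1
    simp only [map_mul] at h1 ⊢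
    rw [← h1]
    ring

theorem indep {W' T : Type*} [Fintype W'] [Nonempty Ω] (a : Ω → W → K) (ha : PrimeH a)
    (c₀ : ℕ) (Θ : MvPolynomial W K) (hΘ : IsCond a c₀ Θ) (y : Ω → W' → K) (hy : ∀ x, y x ≠ 0)
    (e : ℕ) (Y : T → W' → MvPolynomial W K) (hY : LocF a y e Y) (b₁ b : ℕ)
    (hno : ¬ RepF a y (Fintype.card W' * (b₁ + c₀))) :
    ∃ w₀ w₁ : W', ∀ P : ℕ → MvPolynomial W K, (∀ i, (P i).IsHomogeneous b₁) →
      (∀ x, ∑ i ∈ Finset.range (b + 1), eval (a x) (P i) * y x w₀ ^ (b - i) * y x w₁ ^ i = 0) →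
      ∀ i ≤ b, Van a (P i) := by
  classical
  by_contra hcon
  push Not at hcon
  obtain ⟨t, w₀, hw₀⟩ := hY.2.2 (Classical.arbitrary Ω)
  have h0 : ¬ Van a (Y t w₀) := fun h => hw₀ (h _)
  have hone : ∀ w₁ : W', ∃ D Q : MvPolynomial W K, D.IsHomogeneous (b₁ + c₀) ∧
      Q.IsHomogeneous (b₁ + c₀) ∧ ¬ Van a D ∧
      ∀ x, eval (a x) D * eval (a x) (Y t w₁) = eval (a x) Q * eval (a x) (Y t w₀) := by
    intro w₁
    obtain ⟨P, hP, hrel, hne⟩ := hcon w₀ w₁
    exact indep_one a ha c₀ Θ hΘ y e Y hY b₁ b t w₀ w₁ h0 P hP hrel hne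
  choose D Q hDh hQh hD0 hDQ using hone
  set DD : MvPolynomial W K := ∏ w, D w with hDD
  have hDDh : DD.IsHomogeneous (Fintype.card W' * (b₁ + c₀)) := by
    have h1 := IsHomogeneous.prod Finset.univ D (fun _ => b₁ + c₀) fun i _ => hDh i
    rw [Finset.sum_const, Finset.card_univ, smul_eq_mul] at h1
    exact h1
  have hDD0 : ¬ Van a DD := indep_prod a ha _ D _ hDh hD0
  obtain ⟨P, hPdef⟩ : ∃ P : W' → MvPolynomial W K,
      ∀ w, P w = Q w * ∏ w' ∈ Finset.univ.erase w, D w' := ⟨_, fun _ => rfl⟩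
  have hPh : ∀ w, (P w).IsHomogeneous (Fintype.card W' * (b₁ + c₀)) := by
    intro w
    have h1 := (hQh w).mul (IsHomogeneous.prod (Finset.univ.erase w) D (fun _ => b₁ + c₀)
      fun i _ => hDh i)
    have h2 : b₁ + c₀ + ∑ _i ∈ Finset.univ.erase w, (b₁ + c₀) =
        Fintype.card W' * (b₁ + c₀) := by
      rw [Finset.add_sum_erase _ (fun _ => b₁ + c₀) (Finset.mem_univ w), Finset.sum_const,
        Finset.card_univ, smul_eq_mul]
    rw [h2] at h1
    rw [hPdef]
    exact h1
  have hPY : ∀ x w, eval (a x) (P w) * eval (a x) (Y t w₀) =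
      eval (a x) DD * eval (a x) (Y t w) := by
    intro x w
    have h1 : DD = D w * ∏ w' ∈ Finset.univ.erase w, D w' :=
      (Finset.mul_prod_erase _ D (Finset.mem_univ w)).symm
    rw [h1]
    simp only [hPdef, map_mul]
    calc eval (a x) (Q w) * eval (a x) (∏ w' ∈ Finset.univ.erase w, D w') *
          eval (a x) (Y t w₀)
        = (eval (a x) (Q w) * eval (a x) (Y t w₀)) *
          eval (a x) (∏ w' ∈ Finset.univ.erase w, D w') := by ring
      _ = (eval (a x) (D w) * eval (a x) (Y t w)) *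
          eval (a x) (∏ w' ∈ Finset.univ.erase w, D w') := by rw [hDQ w x]
      _ = _ := by ring
  apply hno
  refine ⟨P, hPh, ⟨w₀, ?_⟩, ?_⟩
  · intro hcon
    have h1 : Van a (DD * Y t w₀) := by
      intro x
      rw [map_mul, ← hPY x w₀, hcon x, zero_mul]
    exact indep_mul a ha hDDh (hY.1 t w₀) hDD0 h0 h1
  · intro x
    obtain ⟨t', w'', hw''⟩ := hY.2.2 x
    obtain ⟨c', hc'⟩ := hY.2.1 t' x
    have hc'0 : c' ≠ 0 := by
      rintro rfl
      exact hw'' (by rw [hc' w'', zero_mul])
    have hprop : ∀ w w', Van a (P w * Y t' w' - P w' * Y t' w) := by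
      intro w w'
      have h1 : Van a (Y t w₀ * (P w * Y t' w' - P w' * Y t' w)) := by
        intro z
        obtain ⟨c, hc⟩ := hY.2.1 t z
        obtain ⟨d, hd⟩ := hY.2.1 t' z
        have e1 := hPY z w
        have e2 := hPY z w'
        rw [map_mul, map_sub, map_mul, map_mul]
        have h3 : eval (a z) (Y t w₀) * (eval (a z) (P w) * eval (a z) (Y t' w') -
            eval (a z) (P w') * eval (a z) (Y t' w)) =
            (eval (a z) (P w) * eval (a z) (Y t w₀)) * eval (a z) (Y t' w') -
            (eval (a z) (P w') * eval (a z) (Y t w₀)) * eval (a z) (Y t' w) := by ring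
        rw [h3, e1, e2, hc w, hc w', hd w, hd w']
        ring
      rcases ha _ _ _ _ (hY.1 t w₀) (((hPh w).mul (hY.1 t' w')).sub ((hPh w').mul (hY.1 t' w)))
        h1 with h | h
      · exact absurd h h0
      · exact h
    obtain ⟨ws, hws⟩ := Function.ne_iff.1 (hy x)
    have hws' : y x ws ≠ 0 := hws
    refine ⟨eval (a x) (P ws) / y x ws, fun w => ?_⟩
    have h1 := hprop w ws x
    rw [map_sub, map_mul, map_mul, hc' ws, hc' w, sub_eq_zero] at h1
    have h2 : eval (a x) (P w) * y x ws = eval (a x) (P ws) * y x w := by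
      apply mul_left_cancel₀ hc'0
      calc c' * (eval (a x) (P w) * y x ws) = eval (a x) (P w) * (c' * y x ws) := by ring
        _ = eval (a x) (P ws) * (c' * y x w) := h1
        _ = _ := by ring
    rw [div_mul_eq_mul_div, eq_div_iff hws']
    exact h2

end Indep

end Pool.Agent.Helper63.SAND
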