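import Pool.Agent.Helper63.SAND.Defs

/-!
# COND: existence of a homogeneous conductor
-/

open MvPolynomial Filter Topology

namespace Pool.Agent.Helper63.SAND

section CondAlg

open nonZeroDivisors

attribute [local instance] FractionRing.liftAlgebra FractionRing.isScalarTower_liftAlgebra

/-- The integral closure of a finitely generated domain over a field of characteristic zero has a
nonzero conductor. -/
theorem cond_alg (K R : Type*) [Field K] [CharZero K] [CommRing R] [IsDomain R] [Algebra K R]
    [Algebra.FiniteType K R] :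
    ∃ b : R, b ≠ 0 ∧ ∀ z : FractionRing R, IsIntegral R z →
      ∃ r : R, algebraMap R (FractionRing R) b * z = algebraMap R (FractionRing R) r := by
  obtain ⟨s, g, hg, hfin⟩ := exists_finite_inj_algHom_of_fg K R
  algebraize [g.toRingHom]
  have hinj : Function.Injective (algebraMap (MvPolynomial (Fin s) K) R) := hg
  have : FaithfulSMul (MvPolynomial (Fin s) K) R :=
    (faithfulSMul_iff_algebraMap_injective _ _).2 hinj
  have : Module.Finite (MvPolynomial (Fin s) K) R := hfin
  have : Algebra.IsIntegral (MvPolynomial (Fin s) K) R := inferInstance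
  have : FaithfulSMul (MvPolynomial (Fin s) K) (FractionRing R) := by
    rw [faithfulSMul_iff_algebraMap_injective,
      IsScalarTower.algebraMap_eq (MvPolynomial (Fin s) K) R (FractionRing R)]
    exact (IsFractionRing.injective R (FractionRing R)).comp hinj
  have : Module.IsTorsionFree (MvPolynomial (Fin s) K) R := inferInstance
  have : IsLocalization (Algebra.algebraMapSubmonoid R (MvPolynomial (Fin s) K)⁰)
      (FractionRing R) := inferInstance
  have : FiniteDimensional (FractionRing (MvPolynomial (Fin s) K)) (FractionRing R) :=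
    .of_isLocalization (MvPolynomial (Fin s) K) R (MvPolynomial (Fin s) K)⁰
  have : CharZero (FractionRing (MvPolynomial (Fin s) K)) := inferInstance
  have : Algebra.IsSeparable (FractionRing (MvPolynomial (Fin s) K)) (FractionRing R) :=
    inferInstance
  have hC : Module.Finite (MvPolynomial (Fin s) K)
      (integralClosure (MvPolynomial (Fin s) K) (FractionRing R)) :=
    IsIntegralClosure.finite (MvPolynomial (Fin s) K) (FractionRing (MvPolynomial (Fin s) K))
      (FractionRing R) (integralClosure (MvPolynomial (Fin s) K) (FractionRing R))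
  obtain ⟨S, hS⟩ := hC.fg_top
  classical
  obtain ⟨b, hb⟩ := IsLocalization.exist_integer_multiples_of_finset R⁰
    (S.image (algebraMap (integralClosure (MvPolynomial (Fin s) K) (FractionRing R))
      (FractionRing R)))
  refine ⟨b, nonZeroDivisors.coe_ne_zero b, fun z hz => ?_⟩
  have hz' : IsIntegral (MvPolynomial (Fin s) K) z := isIntegral_trans z hz
  have key : ∀ w : integralClosure (MvPolynomial (Fin s) K) (FractionRing R),
      w ∈ (⊤ : Submodule (MvPolynomial (Fin s) K)
        (integralClosure (MvPolynomial (Fin s) K) (FractionRing R))) →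
      ∃ r : R, algebraMap R (FractionRing R) b * (w : FractionRing R) =
        algebraMap R (FractionRing R) r := by
    rw [← hS]
    intro w hw
    induction hw using Submodule.span_induction with
    | mem x hx =>
      obtain ⟨r, hr⟩ := hb _ (Finset.mem_image_of_mem _ hx)
      refine ⟨r, ?_⟩
      rw [hr, Algebra.smul_def]
      rfl
    | zero => exact ⟨0, by simp⟩
    | add x y _ _ hx hy =>
      obtain ⟨r, hr⟩ := hx
      obtain ⟨t, ht⟩ := hy
      exact ⟨r + t, by rw [map_add, ← hr, ← ht]; push_cast; ring⟩
    | smul a x _ hx =>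
      obtain ⟨r, hr⟩ := hx
      refine ⟨algebraMap _ R a * r, ?_⟩
      have h1 : ((a • x : integralClosure (MvPolynomial (Fin s) K) (FractionRing R)) :
          FractionRing R) = a • (x : FractionRing R) := rfl
      rw [map_mul, ← hr, ← IsScalarTower.algebraMap_apply, h1, Algebra.smul_def]
      ring
  exact key ⟨z, hz'⟩ trivial

end CondAlg

section Cond

variable {K : Type*} [Field K] {Ω W : Type*}

attribute [local instance] MvPolynomial.gradedAlgebra

/-- The ideal of all the polynomials vanishing at all the points `a x`. -/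
private noncomputable def condV (a : Ω → W → K) : Ideal (MvPolynomial W K) where
  carrier := {P | Van a P}
  add_mem' := by
    intro P Q hP hQ x
    rw [map_add, hP x, hQ x, add_zero]
  zero_mem' := fun x => map_zero _
  smul_mem' := by
    intro c P hP x
    rw [smul_eq_mul, map_mul, hP x, mul_zero]

/-- The homogeneous ideal generated by the forms vanishing at all the points `a x`. -/
private noncomputable def condI (a : Ω → W → K) : Ideal (MvPolynomial W K) :=
  ((condV a).homogeneousCore (homogeneousSubmodule W K)).toIdeal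

private lemma condI_hom (a : Ω → W → K) : (condI a).IsHomogeneous (homogeneousSubmodule W K) :=
  HomogeneousIdeal.isHomogeneous _

private lemma van_of_mem_condI {a : Ω → W → K} {P : MvPolynomial W K} (h : P ∈ condI a) :
    Van a P :=
  (Ideal.toIdeal_homogeneousCore_le (homogeneousSubmodule W K) (condV a)) h

private lemma mem_condI {a : Ω → W → K} {P : MvPolynomial W K} {i : ℕ} (hP : P.IsHomogeneous i)
    (h : Van a P) : P ∈ condI a :=
  Ideal.mem_homogeneousCore_of_homogeneous_of_mem (𝒜 := homogeneousSubmodule W K)
    (I := condV a) ⟨i, (mem_homogeneousSubmodule i P).2 hP⟩ h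

private lemma cond_dec (P : MvPolynomial W K) (i : ℕ) :
    ((DirectSum.decompose (homogeneousSubmodule W K) P i :
      homogeneousSubmodule W K i) : MvPolynomial W K) = homogeneousComponent i P :=
  decomposition.decompose'_apply P i

private lemma condI_comp {a : Ω → W → K} {P : MvPolynomial W K} (h : P ∈ condI a) (i : ℕ) :
    homogeneousComponent i P ∈ condI a := by
  have h1 := (Ideal.IsHomogeneous.mem_iff (homogeneousSubmodule W K) (condI_hom a)).1 h i
  rwa [cond_dec] at h1

private lemma condI_prime [Nonempty Ω] {a : Ω → W → K} (ha : PrimeH a) : (condI a).IsPrime := by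
  refine Ideal.IsHomogeneous.isPrime_of_homogeneous_mem_or_mem (condI_hom a) ?_ ?_
  · intro h
    have h1 : (1 : MvPolynomial W K) ∈ condI a := h ▸ trivial
    obtain ⟨x⟩ := ‹Nonempty Ω›
    have := van_of_mem_condI h1 x
    simp at this
  · rintro P Q ⟨i, hi⟩ ⟨j, hj⟩ hPQ
    rcases ha P Q i j ((mem_homogeneousSubmodule i P).1 hi) ((mem_homogeneousSubmodule j Q).1 hj)
      (van_of_mem_condI hPQ) with h | h
    · exact Or.inl (mem_condI ((mem_homogeneousSubmodule i P).1 hi) h)
    · exact Or.inr (mem_condI ((mem_homogeneousSubmodule j Q).1 hj) h)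

private lemma cond_comp_mul (P Q : MvPolynomial W K) {i j : ℕ} (hQ : Q.IsHomogeneous j) :
    homogeneousComponent (i + j) (P * Q) = homogeneousComponent i P * Q := by
  have h := DirectSum.coe_decompose_mul_add_of_right_mem (homogeneousSubmodule W K) (a := P)
    (i := i) ((mem_homogeneousSubmodule j Q).2 hQ)
  rwa [cond_dec, cond_dec] at h

/-- A fraction satisfying a monic equation is integral. -/
private lemma cond_integral {R : Type*} [CommRing R] [IsDomain R] (k : ℕ) (n d : R)
    (hd : d ≠ 0) (α : ℕ → R)
    (h : n ^ k + ∑ i ∈ Finset.range k, α (i + 1) * d ^ (i + 1) * n ^ (k - 1 - i) = 0) :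
    IsIntegral R (algebraMap R (FractionRing R) n / algebraMap R (FractionRing R) d) := by
  have hd' : algebraMap R (FractionRing R) d ≠ 0 := by
    simpa using hd
  set z := algebraMap R (FractionRing R) n / algebraMap R (FractionRing R) d with hz
  have hn : algebraMap R (FractionRing R) n = algebraMap R (FractionRing R) d * z := by
    rw [hz]; field_simp
  refine ⟨Polynomial.X ^ k + ∑ i ∈ Finset.range k,
    Polynomial.C (α (i + 1)) * Polynomial.X ^ (k - 1 - i), ?_, ?_⟩
  · refine Polynomial.monic_X_pow_add ?_
    refine Polynomial.mem_degreeLT.1 (Submodule.sum_mem _ fun i hi => ?_)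
    rw [Polynomial.mem_degreeLT]
    refine (Polynomial.degree_C_mul_X_pow_le _ _).trans_lt ?_
    have := Finset.mem_range.1 hi
    exact_mod_cast (by omega : k - 1 - i < k)
  · have h1 := congrArg (algebraMap R (FractionRing R)) h
    simp only [map_add, map_sum, map_mul, map_pow, map_zero] at h1
    have h2 : (algebraMap R (FractionRing R) d) ^ k * (z ^ k + ∑ i ∈ Finset.range k,
        algebraMap R (FractionRing R) (α (i + 1)) * z ^ (k - 1 - i)) = 0 := by
      rw [← h1, mul_add, hn, mul_pow, Finset.mul_sum]
      congr 1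
      refine Finset.sum_congr rfl fun i hi => ?_
      have := Finset.mem_range.1 hi
      have h3 : algebraMap R (FractionRing R) d ^ k =
          algebraMap R (FractionRing R) d ^ (i + 1) *
            algebraMap R (FractionRing R) d ^ (k - 1 - i) := by
        rw [← pow_add]; congr 1; omega
      rw [h3, mul_pow]; ring
    have h4 := (mul_eq_zero.1 h2).resolve_left (pow_ne_zero _ hd')
    simpa [Polynomial.eval₂_add, Polynomial.eval₂_finsetSum] using h4

/-- A conductor exists. -/
theorem cond [CharZero K] [Finite W] [Nonempty Ω] (a : Ω → W → K) (ha : PrimeH a) :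
    ∃ (c₀ : ℕ) (Θ : MvPolynomial W K), IsCond a c₀ Θ := by
  have hp := condI_prime ha
  have hdom : IsDomain (MvPolynomial W K ⧸ condI a) := Ideal.Quotient.isDomain _
  obtain ⟨b₀, hb₀, hb⟩ := cond_alg K (MvPolynomial W K ⧸ condI a)
  obtain ⟨Θ₀, rfl⟩ := Ideal.Quotient.mk_surjective b₀
  have hΘ₀ : Θ₀ ∉ condI a := fun h => hb₀ (Ideal.Quotient.eq_zero_iff_mem.2 h)
  obtain ⟨j, hj⟩ : ∃ j, homogeneousComponent j Θ₀ ∉ condI a := by
    by_contra! h
    apply hΘ₀
    rw [← sum_homogeneousComponent Θ₀]
    exact Ideal.sum_mem _ fun i _ => h i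
  refine ⟨j, homogeneousComponent j Θ₀, homogeneousComponent_isHomogeneous _ _,
    fun h => hj (mem_condI (homogeneousComponent_isHomogeneous _ _) h), ?_⟩
  intro b e k N D A hk hN hD hDv hA hV
  have hDI : D ∉ condI a := fun h => hDv (van_of_mem_condI h)
  have hmem : N ^ k + ∑ i ∈ Finset.range k, A (i + 1) * D ^ (i + 1) * N ^ (k - 1 - i) ∈
      condI a := by
    refine mem_condI (i := (b + e) * k) ?_ hV
    refine (hN.pow k).add (IsHomogeneous.sum _ _ _ fun i hi => ?_)
    have := Finset.mem_range.1 hi
    have h1 := ((hA (i + 1)).mul (hD.pow (i + 1))).mul (hN.pow (k - 1 - i))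
    convert h1 using 1
    obtain ⟨t, rfl⟩ : ∃ t, k = i + 1 + t := ⟨k - (i + 1), by omega⟩
    have h2 : i + 1 + t - 1 - i = t := by omega
    rw [h2]; ring
  have hd : Ideal.Quotient.mk (condI a) D ≠ 0 := fun h =>
    hDI (Ideal.Quotient.eq_zero_iff_mem.1 h)
  have hint := cond_integral k (Ideal.Quotient.mk (condI a) N) (Ideal.Quotient.mk (condI a) D)
    hd (fun i => Ideal.Quotient.mk (condI a) (A i)) (by
      have := Ideal.Quotient.eq_zero_iff_mem.2 hmem
      simpa only [map_add, map_sum, map_mul, map_pow] using this)
  obtain ⟨r, hr⟩ := hb _ hint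
  obtain ⟨P, rfl⟩ := Ideal.Quotient.mk_surjective r
  have hd' : algebraMap (MvPolynomial W K ⧸ condI a) (FractionRing (MvPolynomial W K ⧸ condI a))
      (Ideal.Quotient.mk (condI a) D) ≠ 0 := by
    simpa using hd
  have hr2 : Ideal.Quotient.mk (condI a) Θ₀ * Ideal.Quotient.mk (condI a) N =
      Ideal.Quotient.mk (condI a) P * Ideal.Quotient.mk (condI a) D := by
    apply IsFractionRing.injective (MvPolynomial W K ⧸ condI a)
      (FractionRing (MvPolynomial W K ⧸ condI a))
    rw [map_mul, map_mul, ← hr]
    field_simp
  have hmem2 : Θ₀ * N - P * D ∈ condI a := by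
    rw [← Ideal.Quotient.eq_zero_iff_mem, map_sub, map_mul, map_mul, hr2, sub_self]
  refine ⟨homogeneousComponent (j + b) P, ?_, ?_⟩
  · rw [add_comm]; exact homogeneousComponent_isHomogeneous _ _
  · have h1 := condI_comp hmem2 (j + b + e)
    rw [map_sub, cond_comp_mul P D hD, add_assoc, cond_comp_mul Θ₀ N hN] at h1
    exact van_of_mem_condI h1

end Cond

end Pool.Agent.Helper63.SAND
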