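import Pool.Agent.Helper63.SAND.Defs
import Pool.Agent.Helper90.KSC.Bound

/-!
Segre coordinates: they are not all zero, their height, and the irreducibility of the set of forms
vanishing on an irreducible subset.
-/

open MvPolynomial Filter Topology
open scoped LinearAlgebra.Projectivization

namespace Pool.Agent.Helper63.SAND

open Pool.Agent.Helper90.KSC

section Segre

variable {K : Type*} [Field K] {ι : Type*} [Fintype ι] {N : ι → ℕ}

theorem seg_ne_zero (x : PPt K N) : seg x ≠ 0 := by
  have h : ∀ i, ∃ j, (x i).rep j ≠ 0 := fun i => Function.ne_iff.mp (x i).rep_nonzero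
  choose w hw using h
  exact Function.ne_iff.mpr ⟨w, Finset.prod_ne_zero_iff.mpr fun i _ => hw i⟩

theorem logHeight_seg [NumberField K] (x : PPt K N) :
    Height.logHeight (seg x) = totalHeight x := by
  have h := Height.logHeight_fun_prod_eq (K := K) (α := ι)
    (ι := fun i => Fin (N i + 1)) (x := fun i => (x i).rep) (fun i => (x i).rep_nonzero)
  have e : seg x = (fun I : (i : ι) → Fin (N i + 1) => ∏ i, (x i).rep (I i)) := rfl
  rw [e, h]
  unfold totalHeight
  exact Finset.sum_congr rfl fun i _ => logHeight_rep' _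

/-- The multihomogeneous polynomial obtained from a form in the Segre coordinates. -/
private noncomputable def segPull (P : MvPolynomial (SIx N) K) :
    MvPolynomial (Σ i, Fin (N i + 1)) K :=
  bind₁ (fun w : SIx N => ∏ i, X (⟨i, w i⟩ : Σ i, Fin (N i + 1))) P

private theorem segPull_eval (P : MvPolynomial (SIx N) K) (x : PPt K N) :
    eval (fun s : Σ i, Fin (N i + 1) => (x s.1).rep s.2) (segPull P) = eval (seg x) P := by
  have e : (fun w : SIx N => eval (fun s : Σ i, Fin (N i + 1) => (x s.1).rep s.2)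
      (∏ i, X (⟨i, w i⟩ : Σ i, Fin (N i + 1)))) = seg x := by
    funext w
    rw [map_prod]
    simp only [eval_X]
    rfl
  unfold segPull
  change eval₂Hom (RingHom.id K) _ (bind₁ _ P) = _
  rw [eval₂Hom_bind₁]
  change eval (fun w : SIx N => eval (fun s : Σ i, Fin (N i + 1) => (x s.1).rep s.2)
      (∏ i, X (⟨i, w i⟩ : Σ i, Fin (N i + 1)))) P = _
  rw [e]

private theorem segPull_homog [DecidableEq ι] (P : MvPolynomial (SIx N) K) (d : ℕ)
    (hP : P.IsHomogeneous d) :
    (segPull P).IsWeightedHomogeneous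
      (fun s : Σ i, Fin (N i + 1) => (Pi.single s.1 1 : ι → ℕ)) (fun _ => d) := by
  classical
  have hX : ∀ w : SIx N, (∏ i, (X (⟨i, w i⟩ : Σ i, Fin (N i + 1)) :
      MvPolynomial (Σ i, Fin (N i + 1)) K)).IsWeightedHomogeneous
      (fun s : Σ i, Fin (N i + 1) => (Pi.single s.1 1 : ι → ℕ)) (fun _ => 1) := by
    intro w
    have h := IsWeightedHomogeneous.prod (R := K) Finset.univ
      (fun i => (X (⟨i, w i⟩ : Σ i, Fin (N i + 1)) : MvPolynomial (Σ i, Fin (N i + 1)) K))
      (fun i => (Pi.single i 1 : ι → ℕ))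
      (w := fun s : Σ i, Fin (N i + 1) => (Pi.single s.1 1 : ι → ℕ))
      (fun i _ => isWeightedHomogeneous_X K _ _)
    have e : ∑ i, (Pi.single i 1 : ι → ℕ) = fun _ => 1 := by
      funext j
      rw [Finset.sum_apply]
      simp [Pi.single_apply]
    rwa [e] at h
  have e : segPull P = ∑ m ∈ P.support, C (P.coeff m) *
      ∏ w ∈ m.support, (∏ i, (X (⟨i, w i⟩ : Σ i, Fin (N i + 1)) :
        MvPolynomial (Σ i, Fin (N i + 1)) K)) ^ m w := by
    conv_lhs => rw [segPull, P.as_sum]
    rw [map_sum]
    refine Finset.sum_congr rfl fun m _ => ?_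
    rw [bind₁_monomial]
  rw [e]
  refine IsWeightedHomogeneous.sum _ _ _ fun m hm => ?_
  refine IsWeightedHomogeneous.C_mul ?_ _
  have h := IsWeightedHomogeneous.prod (R := K) m.support
      (fun w => (∏ i, (X (⟨i, w i⟩ : Σ i, Fin (N i + 1)) :
        MvPolynomial (Σ i, Fin (N i + 1)) K)) ^ m w)
      (fun w => m w • (fun _ => 1 : ι → ℕ))
      (w := fun s : Σ i, Fin (N i + 1) => (Pi.single s.1 1 : ι → ℕ))
      (fun w _ => (hX w).pow (m w))
  have e2 : ∑ w ∈ m.support, m w • (fun _ => 1 : ι → ℕ) = fun _ => d := by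
    funext j
    rw [Finset.sum_apply]
    have h3 : m.degree = d := by
      have h4 := hP (mem_support_iff.mp hm)
      rw [← h4]
      simp [Finsupp.weight_apply, Finsupp.degree, Finsupp.sum]
    rw [← h3]
    simp [Finsupp.degree]
  rwa [e2] at h

/-! ### IRR -/

theorem primeH_seg [DecidableEq ι] (X : Set (PPt K N)) (hX : Irred X) :
    PrimeH (fun x : X => seg (x : PPt K N)) := by
  intro P Q i j hP hQ hPQ
  have hcl : ∀ (R : MvPolynomial (SIx N) K) (d : ℕ), R.IsHomogeneous d →
      ZClosed {x : PPt K N | eval (seg x) R = 0} := by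
    intro R d hR
    refine ⟨{segPull R}, ?_, ?_⟩
    · intro F hF
      rw [Set.mem_singleton_iff] at hF
      rw [hF]
      exact ⟨_, segPull_homog R d hR⟩
    · ext x
      simp only [Set.mem_setOf_eq, Set.mem_singleton_iff, forall_eq, segPull_eval]
  have hsub : X ⊆ {x : PPt K N | eval (seg x) P = 0} ∪ {x : PPt K N | eval (seg x) Q = 0} := by
    intro x hx
    have h := hPQ ⟨x, hx⟩
    simp only [map_mul, mul_eq_zero] at h
    exact h
  rcases hX.2 _ _ (hcl P i hP) (hcl Q j hQ) hsub with h | h
  · exact Or.inl fun x => h x.2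
  · exact Or.inr fun x => h x.2

end Segre

end Pool.Agent.Helper63.SAND
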