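import Pool.Agent.Helper63.SAND.Defs

open MvPolynomial Filter Topology

namespace Pool.Agent.Helper63.SAND

theorem box_count {K : Type*} [Field K] [CharZero K] (d : ℕ) (P : MvPolynomial (Fin d) K)
    (hP : P ≠ 0) (T : ℕ) :
    {t : Fin d → ℤ | (∀ i, |t i| ≤ T) ∧ eval (fun i => (t i : K)) P = 0}.ncard * (2 * T + 1) ≤
      P.totalDegree * (2 * T + 1) ^ d := by
  classical
  set S : Finset K := (Finset.Icc (-(T : ℤ)) T).image (fun z : ℤ => (z : K)) with hS
  have hcard : S.card = 2 * T + 1 := by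
    rw [hS, Finset.card_image_of_injective _ Int.cast_injective, Int.card_Icc]
    omega
  have hsz := MvPolynomial.schwartz_zippel_totalDegree hP S
  rw [hcard] at hsz
  set Z : Set (Fin d → ℤ) := {t | (∀ i, |t i| ≤ T) ∧ eval (fun i => (t i : K)) P = 0} with hZ
  have hinj : Function.Injective (fun (t : Fin d → ℤ) (i : Fin d) => (t i : K)) := by
    intro t t' htt
    funext i
    exact Int.cast_injective (congrFun htt i)
  have hle : Z.ncard ≤ (Finset.filter (fun x => eval x P = 0)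
      (Fintype.piFinset fun _ : Fin d => S)).card := by
    rw [← Set.ncard_coe_finset]
    refine Set.ncard_le_ncard_of_injOn (fun t i => (t i : K)) ?_ hinj.injOn
    rintro t ⟨ht1, ht2⟩
    simp only [Finset.coe_filter, Set.mem_setOf_eq, Fintype.mem_piFinset]
    refine ⟨fun i => ?_, ht2⟩
    rw [hS, Finset.mem_image]
    exact ⟨t i, Finset.mem_Icc.2 (abs_le.1 (ht1 i)), rfl⟩
  have hpos : (0 : ℚ≥0) < (2 * T + 1 : ℕ) := by exact_mod_cast Nat.succ_pos _
  have h1 : ((Finset.filter (fun x => eval x P = 0)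
      (Fintype.piFinset fun _ : Fin d => S)).card : ℚ≥0) * ((2 * T + 1 : ℕ) : ℚ≥0) ≤
      (P.totalDegree : ℚ≥0) * ((2 * T + 1 : ℕ) : ℚ≥0) ^ d := by
    have h2 : ((Finset.filter (fun x => eval x P = 0)
      (Fintype.piFinset fun _ : Fin d => S)).card : ℚ≥0) / ((2 * T + 1 : ℕ) : ℚ≥0) ^ d ≤
      (P.totalDegree : ℚ≥0) / ((2 * T + 1 : ℕ) : ℚ≥0) := hsz
    rwa [div_le_div_iff₀ (pow_pos hpos d) hpos] at h2
  have h3 : (Finset.filter (fun x => eval x P = 0)
      (Fintype.piFinset fun _ : Fin d => S)).card * (2 * T + 1) ≤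
      P.totalDegree * (2 * T + 1) ^ d := by exact_mod_cast h1
  exact (Nat.mul_le_mul_right _ hle).trans h3

end Pool.Agent.Helper63.SAND
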