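import Pool.Agent.Helper63.SAND.Defs

/-!
The class of a point at a place: the coordinate of largest absolute value, the residues of the
quotients of the coordinates, and charts of good reduction along the orbit.
-/

open MvPolynomial

namespace Pool.Agent.Helper63.SAND

/-- The charts `τ` are of good reduction at `v` along the first `n` steps of the orbit of `x`. -/
def GoodAt {K : Type*} [Field K] {Ω W T : Type*} (a : Ω → W → K) (F : Ω → Ω) (e : ℕ)
    (G : T → W → MvPolynomial W K) (n : ℕ) (v : AbsoluteValue K ℝ) (x : Ω)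
    (τ : Fin n → T) : Prop :=
  ∀ i : Fin n, (⨆ w, v (eval (a (F^[i] x)) (G (τ i) w))) = (⨆ w, v (a (F^[i] x) w)) ^ e

/-- `γ` is a class of the point `x` for the absolute value `v`. -/
def InClass {K : Type*} [Field K] {Ω W T : Type*} (a : Ω → W → K) (F : Ω → Ω) (e : ℕ)
    (G : T → W → MvPolynomial W K) (n : ℕ) (v : AbsoluteValue K ℝ) {q : ℕ} (red : K → Fin q)
    (γ : W × (W → Fin q) × (Fin n → T)) (x : Ω) : Prop :=
  a x γ.1 ≠ 0 ∧ (∀ w, v (a x w) ≤ v (a x γ.1)) ∧ (∀ w, red (a x w / a x γ.1) = γ.2.1 w) ∧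
    GoodAt a F e G n v x γ.2.2

end Pool.Agent.Helper63.SAND
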