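import Pool.Agent.Helper63.SAND.Defs

/-!
# Module CRAM: vectors of maximal determinant span with coefficients in the unit ball
-/

open MvPolynomial Filter Topology
open scoped LinearAlgebra.Projectivization

namespace Pool.Agent.Helper63.SAND

open Pool.Agent.Helper90.KSC

variable {K : Type*} [Field K]

/-- A family of vectors in a finite dimensional space: coefficients in the unit ball. -/
private theorem cram_aux (v : AbsoluteValue K ℝ) {V : Type*} [AddCommGroup V] [Module K V]
    (d n : ℕ) (e : Module.Basis (Fin d) K V) (F : Fin n → V)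
    (h : ∃ t : Fin d → Fin n, e.det (fun l => F (t l)) ≠ 0) :
    ∃ t : Fin d → Fin n, ∀ i, ∃ c : Fin d → K, (∀ l, v (c l) ≤ 1) ∧
      F i = ∑ l, c l • F (t l) := by
  classical
  obtain ⟨t0, ht0⟩ := h
  have : Nonempty (Fin d → Fin n) := ⟨t0⟩
  obtain ⟨t, ht⟩ := Finite.exists_max fun t : Fin d → Fin n => v (e.det fun l => F (t l))
  have hne : e.det (fun l => F (t l)) ≠ 0 := by
    intro h0
    have h1 := ht t0
    rw [h0, map_zero] at h1
    exact ht0 ((AbsoluteValue.eq_zero v).1 (le_antisymm h1 (v.nonneg _)))
  obtain ⟨hli, hsp⟩ := e.is_basis_iff_det.2 (IsUnit.mk0 _ hne)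
  let b : Module.Basis (Fin d) K V := Module.Basis.mk hli hsp.ge
  have hb : ∀ l, b l = F (t l) := fun l => by
    simp [b]
  refine ⟨t, fun i => ⟨fun l => b.repr (F i) l, fun l => ?_, ?_⟩⟩
  · have h1 : e.det (fun k => F (Function.update t l i k)) =
        b.repr (F i) l * e.det (fun k => F (t k)) := by
      have h2 : (fun k => F (Function.update t l i k)) =
          Function.update (fun k => F (t k)) l (F i) := by
        funext k
        by_cases hk : k = l
        · subst hk; simp
        · simp [Function.update_of_ne hk]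
      rw [h2]
      conv_lhs => rw [← b.sum_repr (F i)]
      rw [AlternatingMap.map_update_sum]
      rw [Finset.sum_eq_single l]
      · rw [AlternatingMap.map_update_smul, hb, Function.update_eq_self, smul_eq_mul]
      · intro k _ hk
        rw [AlternatingMap.map_update_smul, hb]
        rw [AlternatingMap.map_update_self _ _ (Ne.symm hk), smul_zero]
      · intro h; exact absurd (Finset.mem_univ l) h
    have h3 := ht (Function.update t l i)
    rw [h1, map_mul] at h3
    have h4 : 0 < v (e.det fun k => F (t k)) := v.pos hne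
    exact le_of_mul_le_mul_right (by rw [one_mul]; exact h3) h4
  · conv_lhs => rw [← b.sum_repr (F i)]
    exact Finset.sum_congr rfl fun l _ => by rw [hb]

theorem cram (v : AbsoluteValue K ℝ) (s q n : ℕ) (F : Fin n → (Fin s → K))
    (hq : Module.finrank K (Submodule.span K (Set.range F)) ≤ q) :
    ∃ g : Fin q → (Fin s → K), (∀ l, g l = 0 ∨ ∃ i, g l = F i) ∧
      ∀ i, ∃ c : Fin q → K, (∀ l, v (c l) ≤ 1) ∧ F i = ∑ l, c l • g l := by
  classical
  set V := Submodule.span K (Set.range F) with hV
  obtain ⟨f, hf, hfs, hfl⟩ := Submodule.exists_fun_fin_finrank_span_eq K (Set.range F)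
  have hmem : ∀ i, F i ∈ V := fun i => Submodule.subset_span ⟨i, rfl⟩
  choose t0 ht0 using hf
  let e : Module.Basis (Fin (Module.finrank K V)) K V := Module.finBasis K V
  have hex : ∃ t : Fin (Module.finrank K V) → Fin n,
      e.det (fun l => (⟨F (t l), hmem (t l)⟩ : V)) ≠ 0 := by
    refine ⟨t0, ?_⟩
    have h1 : LinearIndependent K (fun l => (⟨F (t0 l), hmem (t0 l)⟩ : V)) := by
      refine LinearIndependent.of_comp V.subtype ?_
      have : (V.subtype ∘ fun l => (⟨F (t0 l), hmem (t0 l)⟩ : V)) = f := by
        funext l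
        exact ht0 l
      rw [this]
      exact hfl
    have h2 : Submodule.span K (Set.range fun l => (⟨F (t0 l), hmem (t0 l)⟩ : V)) = ⊤ :=
      h1.span_eq_top_of_card_eq_finrank' (by rw [Fintype.card_fin])
    exact (e.is_basis_iff_det.1 ⟨h1, h2⟩).ne_zero
  obtain ⟨t, ht⟩ := cram_aux v _ n e (fun i => (⟨F i, hmem i⟩ : V)) hex
  obtain ⟨r, hr⟩ := Nat.exists_eq_add_of_le hq
  subst hr
  refine ⟨Fin.append (fun l => F (t l)) fun _ => 0, fun l => ?_, fun i => ?_⟩
  · refine Fin.addCases (fun l => ?_) (fun l => ?_) l
    · right; exact ⟨t l, by rw [Fin.append_left]⟩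
    · left; rw [Fin.append_right]
  · obtain ⟨c, hc, hF⟩ := ht i
    refine ⟨Fin.append c fun _ => 0, fun l => ?_, ?_⟩
    · refine Fin.addCases (fun l => ?_) (fun l => ?_) l
      · rw [Fin.append_left]; exact hc l
      · rw [Fin.append_right, map_zero]; exact zero_le_one
    · rw [Fin.sum_univ_add]
      simp only [Fin.append_left, Fin.append_right, smul_zero, Finset.sum_const_zero, add_zero]
      have h5 := congrArg (V.subtype) hF
      simpa [map_sum] using h5

end Pool.Agent.Helper63.SAND
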