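import Pool.Agent.Helper90.KSC.Main

/-!
Definitions for the determinant method on the graphs of the iterates of an endomorphism.
-/

open MvPolynomial Filter Topology
open scoped LinearAlgebra.Projectivization

namespace Pool.Agent.Helper63.SAND

open Pool.Agent.Helper90.KSC

/-! ### Segre coordinates -/

section Segre

/-- Index set of the Segre coordinates of the product of projective spaces. -/
abbrev SIx {ι : Type*} (N : ι → ℕ) : Type _ := ∀ i, Fin (N i + 1)

variable {K : Type*} [Field K] {ι : Type*} [Fintype ι] {N : ι → ℕ}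

/-- The Segre coordinates of `x`: the products of one homogeneous coordinate of each factor. -/
noncomputable def seg (x : PPt K N) (w : SIx N) : K := ∏ i, (x i).rep (w i)

/-- `f` is a morphism on `X`: it is given locally by forms. There are finitely many tuples `G s` of
forms of some degree `e` in the Segre coordinates; for every `x ∈ X` and every `s` the values of
`G s` at `x` are proportional to the Segre coordinates of `f x`, and for every `x ∈ X` they are
not all zero for at least one `s`. -/
def LocallyByForms (X : Set (PPt K N)) (f : PPt K N → PPt K N) : Prop :=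
  ∃ (e t : ℕ) (G : Fin t → SIx N → MvPolynomial (SIx N) K),
    (∀ s w, (G s w).IsHomogeneous e) ∧
    (∀ s, ∀ x ∈ X, ∃ c : K, ∀ w, eval (seg x) (G s w) = c * seg (f x) w) ∧
    ∀ x ∈ X, ∃ s w, eval (seg x) (G s w) ≠ 0

/-- `g` is given on `X`, as a rational map, by forms of degree `d` in the Segre coordinates. -/
def RepBy (X : Set (PPt K N)) (g : PPt K N → PPt K N) (d : ℕ) : Prop :=
  ∃ P : SIx N → MvPolynomial (SIx N) K, (∀ w, (P w).IsHomogeneous d) ∧
    (∃ x ∈ X, ∃ w, eval (seg x) (P w) ≠ 0) ∧
    ∀ x ∈ X, ∃ c : K, ∀ w, eval (seg x) (P w) = c * seg (g x) w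

/-- The degree of `g` on `X`: the least degree of forms in the Segre coordinates which give `g`
on `X` as a rational map. -/
noncomputable def repDegree (X : Set (PPt K N)) (g : PPt K N → PPt K N) : ℕ :=
  sInf {d | RepBy X g d}

/-- The first dynamical degree of `f` on `X` is `δ`: the `n`-th roots of the degrees of the
iterates `f^[n]` converge to `δ`. -/
def IsDynDegree (X : Set (PPt K N)) (f : PPt K N → PPt K N) (δ : ℝ) : Prop :=
  Tendsto (fun n : ℕ => (repDegree X f^[n] : ℝ) ^ ((1 : ℝ) / n)) atTop (𝓝 δ)

/-- The degrees of the iterates of `f` on `Y` grow at least at the rate `δ`: the lower limit of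
the `n`-th roots of the degrees of `f^[n]` on `Y` is at least `δ`. -/
def DegreeGrowth (Y : Set (PPt K N)) (f : PPt K N → PPt K N) (δ : ℝ) : Prop :=
  ∀ r : ℝ, 0 < r → r < δ → ∀ᶠ n : ℕ in atTop, r ^ n ≤ (repDegree Y f^[n] : ℝ)

end Segre

/-! ### Forms on a family of points of affine space -/

section Abstract

variable {K : Type*} [Field K] {Ω W : Type*}

/-- `P` vanishes at all the points `a x`. -/
def Van (a : Ω → W → K) (P : MvPolynomial W K) : Prop := ∀ x, eval (a x) P = 0

/-- The forms vanishing at all the points `a x` are a prime set. -/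
def PrimeH (a : Ω → W → K) : Prop :=
  ∀ (P Q : MvPolynomial W K) (i j : ℕ), P.IsHomogeneous i → Q.IsHomogeneous j →
    Van a (P * Q) → Van a P ∨ Van a Q

/-- The functions on `Ω` given by the forms of degree `k`. -/
noncomputable def formsOn (a : Ω → W → K) (k : ℕ) : Submodule K (Ω → K) :=
  (homogeneousSubmodule W K k).map (LinearMap.pi fun x => (aeval (a x)).toLinearMap)

/-- The Hilbert function of the family of points. -/
noncomputable def hil (a : Ω → W → K) (k : ℕ) : ℕ := Module.finrank K (formsOn a k)

/-- The rational map `y` on `Ω` is given by forms of degree `d`. -/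
def RepF {W' : Type*} (a : Ω → W → K) (y : Ω → W' → K) (d : ℕ) : Prop :=
  ∃ P : W' → MvPolynomial W K, (∀ w, (P w).IsHomogeneous d) ∧ (∃ w, ¬ Van a (P w)) ∧
    ∀ x, ∃ c : K, ∀ w, eval (a x) (P w) = c * y x w

/-- `y` is given locally by the forms `Y t` of degree `e`. -/
def LocF {W' T : Type*} (a : Ω → W → K) (y : Ω → W' → K) (e : ℕ)
    (Y : T → W' → MvPolynomial W K) : Prop :=
  (∀ t w, (Y t w).IsHomogeneous e) ∧
    (∀ t x, ∃ c : K, ∀ w, eval (a x) (Y t w) = c * y x w) ∧
    ∀ x, ∃ t w, eval (a x) (Y t w) ≠ 0

/-- `Θ` is a conductor of degree `c₀`: it multiplies every homogeneous fraction `N / D` of degree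
`b` which is integral over the forms into the forms of degree `b + c₀`. -/
def IsCond (a : Ω → W → K) (c₀ : ℕ) (Θ : MvPolynomial W K) : Prop :=
  Θ.IsHomogeneous c₀ ∧ ¬ Van a Θ ∧
    ∀ (b e k : ℕ) (N D : MvPolynomial W K) (A : ℕ → MvPolynomial W K), 1 ≤ k →
      N.IsHomogeneous (b + e) → D.IsHomogeneous e → ¬ Van a D →
      (∀ i, (A i).IsHomogeneous (i * b)) →
      Van a (N ^ k + ∑ i ∈ Finset.range k, A (i + 1) * D ^ (i + 1) * N ^ (k - 1 - i)) →
      ∃ Q : MvPolynomial W K, Q.IsHomogeneous (b + c₀) ∧ Van a (Θ * N - Q * D)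

/-- All the coefficients of `P` are in the unit ball of `v`. -/
def IntPoly {σ : Type*} (v : AbsoluteValue K ℝ) (P : MvPolynomial σ K) : Prop :=
  ∀ d, v (P.coeff d) ≤ 1

/-- The forms giving the `n`-th iterate of a map given locally by the forms `G t`, for the
sequence `τ` of charts. -/
noncomputable def chart {T : Type*} (G : T → W → MvPolynomial W K) :
    (n : ℕ) → (Fin n → T) → W → MvPolynomial W K
  | 0, _ => X
  | n + 1, τ => fun w => bind₁ (chart G n (Fin.init τ)) (G (τ (Fin.last n)) w)

end Abstract

end Pool.Agent.Helper63.SAND
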