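import Pool.Agent.Helper63.SAND.Defs

/-!
The determinant of a matrix `C * G + Z` with `C` of size `s × q` and `Z` small is small
(nonarchimedean absolute value).
-/

open Finset

namespace Pool.Agent.Helper63.SAND

variable {K : Type*} [Field K]

/-- A nonarchimedean absolute value of a finite sum. -/
private lemma detx_sum_le (v : AbsoluteValue K ℝ) (hv : IsNonarchimedean v) {ι : Type*}
    (t : Finset ι) (f : ι → K) (B : ℝ) (hB : 0 ≤ B) (hf : ∀ i ∈ t, v (f i) ≤ B) :
    v (∑ i ∈ t, f i) ≤ B := by
  classical
  induction t using Finset.induction_on with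
  | empty => simpa using hB
  | insert a t ha ih =>
    rw [Finset.sum_insert ha]
    exact (hv _ _).trans (max_le (hf a (Finset.mem_insert_self a t))
      (ih fun i hi => hf i (Finset.mem_insert_of_mem hi)))

private lemma detx_sign (v : AbsoluteValue K ℝ) {s : ℕ} (σ : Equiv.Perm (Fin s)) (x : K) :
    v (Equiv.Perm.sign σ • x) = v x := by
  rcases Int.units_eq_one_or (Equiv.Perm.sign σ) with h | h
  · simp [h]
  · rw [h]
    simp [Units.smul_def]

theorem detx (v : AbsoluteValue K ℝ) (hv : IsNonarchimedean v) (s q : ℕ)
    (M Z : Matrix (Fin s) (Fin s) K) (C : Matrix (Fin s) (Fin q) K) (G : Matrix (Fin q) (Fin s) K)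
    (τ : ℝ) (hτ0 : 0 ≤ τ) (hτ1 : τ ≤ 1) (hC : ∀ i j, v (C i j) ≤ 1) (hG : ∀ i j, v (G i j) ≤ 1)
    (hZ : ∀ i j, v (Z i j) ≤ τ) (hM : M = C * G + Z) : v M.det ≤ τ ^ (s - q) := by
  classical
  -- the rows
  set c : Fin s → Option (Fin q) → K := fun k x => x.elim 1 (fun l => C k l) with hc
  set h : Fin s → Option (Fin q) → (Fin s → K) := fun k x => x.elim (Z k) (fun l => G l) with hh
  have hrow : M = fun k => ∑ x : Option (Fin q), c k x • h k x := by
    funext k
    rw [Fintype.sum_option]
    subst hM
    funext j
    simp [c, h, Matrix.mul_apply, Finset.sum_apply, add_comm]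
  have hdet : M.det = ∑ r : Fin s → Option (Fin q),
      (∏ k, c k (r k)) * Matrix.det (fun k => h k (r k)) := by
    have h1 : M.det = Matrix.detRowAlternating.toMultilinearMap
        (fun k => ∑ x : Option (Fin q), c k x • h k x) := by
      rw [← hrow]; rfl
    rw [h1, MultilinearMap.map_sum]
    refine Finset.sum_congr rfl fun r _ => ?_
    rw [MultilinearMap.map_smul_univ]
    rfl
  have hcv : ∀ k x, v (c k x) ≤ 1 := by
    intro k x
    cases x with
    | none => simp [c]
    | some l => exact hC k l
  have hhv : ∀ k x j, v (h k x j) ≤ if x = none then τ else 1 := by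
    intro k x j
    cases x with
    | none => simpa [h] using hZ k j
    | some l => simpa [h] using hG l j
  rw [hdet]
  refine detx_sum_le v hv _ _ _ (pow_nonneg hτ0 _) fun r _ => ?_
  rw [map_mul]
  have hp : v (∏ k, c k (r k)) ≤ 1 := by
    rw [map_prod]
    exact Finset.prod_le_one (fun k _ => v.nonneg _) (fun k _ => hcv k _)
  by_cases hinj : ∃ k k', k ≠ k' ∧ r k = r k' ∧ r k ≠ none
  · obtain ⟨k, k', hkk, hr, hn⟩ := hinj
    have h0 : Matrix.det (fun k => h k (r k)) = 0 := by
      refine Matrix.det_zero_of_row_eq hkk ?_
      obtain ⟨l, hl⟩ := Option.ne_none_iff_exists'.mp hn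
      funext j
      simp only [h]
      rw [← hr, hl]
      rfl
    rw [h0]
    simpa using pow_nonneg hτ0 _
  · push Not at hinj
    have hcard : s - q ≤ (Finset.univ.filter fun k => r k = none).card := by
      have h1 : (Finset.univ.filter fun k => ¬ r k = none).card ≤ q := by
        have h2 : (Finset.univ.filter fun k => ¬ r k = none).card
            ≤ (Finset.univ.filter fun x : Option (Fin q) => ¬ x = none).card := by
          refine Finset.card_le_card_of_injOn r ?_ ?_
          · intro k hk
            simpa using hk
          · intro k hk k' hk' hkk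
            by_contra hne
            exact (by simpa using hk : ¬ r k = none) (hinj k k' hne hkk)
        refine h2.trans ?_
        have h3 : (Finset.univ.filter fun x : Option (Fin q) => ¬ x = none)
            = Finset.univ.erase none := by
          ext x; simp
        rw [h3, Finset.card_erase_of_mem (Finset.mem_univ _)]
        simp
      have h4 := Finset.card_filter_add_card_filter_not
        (s := (Finset.univ : Finset (Fin s))) (p := fun k => r k = none)
      rw [Finset.card_univ, Fintype.card_fin] at h4
      omega
    have hd : v (Matrix.det (fun k => h k (r k))) ≤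
        τ ^ (Finset.univ.filter fun k => r k = none).card := by
      rw [Matrix.det_apply]
      refine detx_sum_le v hv _ _ _ (pow_nonneg hτ0 _) fun σ _ => ?_
      rw [detx_sign, map_prod]
      have h5 : ∏ k, v (h (σ k) (r (σ k)) k) ≤ ∏ k, (if r (σ k) = none then τ else 1) :=
        Finset.prod_le_prod (fun k _ => v.nonneg _) (fun k _ => hhv _ _ _)
      refine h5.trans (le_of_eq ?_)
      rw [Equiv.prod_comp σ (fun k => if r k = none then τ else 1), Finset.prod_ite]
      simp
    calc v (∏ k, c k (r k)) * v (Matrix.det (fun k => h k (r k)))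
        ≤ 1 * τ ^ (Finset.univ.filter fun k => r k = none).card :=
          mul_le_mul hp hd (v.nonneg _) zero_le_one
      _ ≤ τ ^ (s - q) := by
          rw [one_mul]
          exact pow_le_pow_of_le_one hτ0 hτ1 hcard

end Pool.Agent.Helper63.SAND
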