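import Pool.Agent.Helper63.SAND.Htq

/-!
The determinant inequality (product formula).
-/

open MvPolynomial Filter Topology
open scoped LinearAlgebra.Projectivization

namespace Pool.Agent.Helper63.SAND

open Pool.Agent.Helper90.KSC

private lemma glob_entry {K : Type*} [Field K] {W : Type*} [Fintype W] (v : AbsoluteValue K ℝ)
    (a y : W → K) (b₁ b : ℕ) (ex : W →₀ ℕ) (hex : ex.degree = b₁) (i : ℕ) (hi : i ≤ b)
    (w₀ w₁ : W) :
    v (eval a (monomial ex (1 : K)) * y w₀ ^ (b - i) * y w₁ ^ i) ≤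
      (⨆ w, v (a w)) ^ b₁ * (⨆ w, v (y w)) ^ b := by
  have hA : ∀ w, v (a w) ≤ ⨆ w, v (a w) := fun w => Finite.le_ciSup_of_le w le_rfl
  have hY : ∀ w, v (y w) ≤ ⨆ w, v (y w) := fun w => Finite.le_ciSup_of_le w le_rfl
  have hA0 : 0 ≤ ⨆ w, v (a w) := Real.iSup_nonneg_of_nonnegHomClass v _
  have hY0 : 0 ≤ ⨆ w, v (y w) := Real.iSup_nonneg_of_nonnegHomClass v _
  have h1 : v (eval a (monomial ex (1 : K))) ≤ (⨆ w, v (a w)) ^ b₁ := by
    rw [eval_monomial, one_mul, Finsupp.prod, map_prod, ← hex, Finsupp.degree_apply,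
      ← Finset.prod_pow_eq_pow_sum]
    refine Finset.prod_le_prod (fun w _ => v.nonneg _) fun w _ => ?_
    rw [map_pow]
    exact pow_le_pow_left₀ (v.nonneg _) (hA w) _
  have h2 : v (y w₀) ^ (b - i) * v (y w₁) ^ i ≤ (⨆ w, v (y w)) ^ b := by
    calc v (y w₀) ^ (b - i) * v (y w₁) ^ i ≤ (⨆ w, v (y w)) ^ (b - i) * (⨆ w, v (y w)) ^ i :=
          mul_le_mul (pow_le_pow_left₀ (v.nonneg _) (hY _) _)
            (pow_le_pow_left₀ (v.nonneg _) (hY _) _) (pow_nonneg (v.nonneg _) _)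
            (pow_nonneg hY0 _)
      _ = (⨆ w, v (y w)) ^ b := by rw [← pow_add, Nat.sub_add_cancel hi]
  rw [mul_assoc, map_mul, map_mul, map_pow, map_pow]
  exact mul_le_mul h1 h2 (mul_nonneg (pow_nonneg (v.nonneg _) _) (pow_nonneg (v.nonneg _) _))
    (pow_nonneg hA0 _)

private lemma glob_sign {K : Type*} [Field K] {s : ℕ} (v : AbsoluteValue K ℝ)
    (σ : Equiv.Perm (Fin s)) (x : K) : v (Equiv.Perm.sign σ • x) = v x := by
  rcases Int.units_eq_one_or (Equiv.Perm.sign σ) with h | h <;> simp [h]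

private lemma glob_det_arch {K : Type*} [Field K] {s : ℕ} (v : AbsoluteValue K ℝ)
    (M : Matrix (Fin s) (Fin s) K) (B : Fin s → ℝ) (hM : ∀ k j, v (M k j) ≤ B j) :
    v M.det ≤ (s.factorial : ℝ) * ∏ j, B j := by
  rw [Matrix.det_apply]
  calc v (∑ σ : Equiv.Perm (Fin s), Equiv.Perm.sign σ • ∏ j, M (σ j) j)
      ≤ ∑ σ : Equiv.Perm (Fin s), v (Equiv.Perm.sign σ • ∏ j, M (σ j) j) := v.sum_le _ _
    _ ≤ ∑ σ : Equiv.Perm (Fin s), ∏ j, B j := by
        refine Finset.sum_le_sum fun σ _ => ?_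
        rw [glob_sign, map_prod]
        exact Finset.prod_le_prod (fun j _ => v.nonneg _) fun j _ => hM _ _
    _ = (s.factorial : ℝ) * ∏ j, B j := by
        rw [Finset.sum_const, Finset.card_univ, Fintype.card_perm, Fintype.card_fin, nsmul_eq_mul]

private lemma glob_det_non {K : Type*} [Field K] {s : ℕ} (v : AbsoluteValue K ℝ)
    (hv : IsNonarchimedean v)
    (M : Matrix (Fin s) (Fin s) K) (B : Fin s → ℝ) (hM : ∀ k j, v (M k j) ≤ B j) :
    v M.det ≤ ∏ j, B j := by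
  rw [Matrix.det_apply]
  obtain ⟨σ, -, hσ⟩ := hv.finset_image_add_of_nonempty
    (fun σ : Equiv.Perm (Fin s) => Equiv.Perm.sign σ • ∏ j, M (σ j) j)
    (t := Finset.univ) ⟨1, Finset.mem_univ _⟩
  refine hσ.trans ?_
  rw [glob_sign, map_prod]
  exact Finset.prod_le_prod (fun j _ => v.nonneg _) fun j _ => hM _ _

private lemma glob_prod {s b₁ b : ℕ} (f g : Fin s → ℝ) :
    ∏ x : Fin s × (Fin b₁ ⊕ Fin b), (Sum.elim (fun _ => f x.1) (fun _ => g x.1) x.2 : ℝ) =
      ∏ j, (f j ^ b₁ * g j ^ b) := by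
  rw [Fintype.prod_prod_type]
  refine Finset.prod_congr rfl fun j _ => ?_
  rw [Fintype.prod_sum_type]
  simp

private lemma glob_sum {s b₁ b : ℕ} (f g : Fin s → ℝ) :
    ∑ x : Fin s × (Fin b₁ ⊕ Fin b), (Sum.elim (fun _ => f x.1) (fun _ => g x.1) x.2 : ℝ) =
      ∑ j, (b₁ * f j + b * g j) := by
  rw [Fintype.sum_prod_type]
  refine Finset.sum_congr rfl fun j _ => ?_
  rw [Fintype.sum_sum_type]
  simp

open Height Height.AdmissibleAbsValues in
theorem glob {K : Type*} [Field K] [AdmissibleAbsValues K] {W : Type*} [Fintype W] (s : ℕ)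
    (a y : Fin s → W → K) (ha : ∀ j, a j ≠ 0) (hy : ∀ j, y j ≠ 0) (b₁ b : ℕ)
    (ex : Fin s → (W →₀ ℕ)) (hex : ∀ k, (ex k).degree = b₁) (i : Fin s → ℕ) (hi : ∀ k, i k ≤ b)
    (w₀ w₁ : W)
    (hdet : Matrix.det (Matrix.of fun k j =>
      eval (a j) (monomial (ex k) (1 : K)) * y j w₀ ^ (b - i k) * y j w₁ ^ i k) ≠ 0)
    (v : AbsoluteValue K ℝ) (hv : v ∈ nonarchAbsVal (K := K)) (τ : ℝ) (hτ : 0 < τ)
    (hb : v (Matrix.det (Matrix.of fun k j =>
      eval (a j) (monomial (ex k) (1 : K)) * y j w₀ ^ (b - i k) * y j w₁ ^ i k)) ≤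
      τ * ∏ j, ((⨆ w, v (a j w)) ^ b₁ * (⨆ w, v (y j w)) ^ b)) :
    0 ≤ totalWeight K * (s * Real.log s) + Real.log τ +
      ∑ j, (b₁ * logHeight (a j) + b * logHeight (y j)) := by
  classical
  set M : Matrix (Fin s) (Fin s) K := Matrix.of fun k j =>
      eval (a j) (monomial (ex k) (1 : K)) * y j w₀ ^ (b - i k) * y j w₁ ^ i k with hM
  have hME : ∀ (v : AbsoluteValue K ℝ) (k j : Fin s), v (M k j) ≤
      (⨆ w, v (a j w)) ^ b₁ * (⨆ w, v (y j w)) ^ b := fun v k j =>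
    glob_entry v (a j) (y j) b₁ b (ex k) (hex k) (i k) (hi k) w₀ w₁
  let z : Unit → K := fun _ => M.det
  have hz : z ≠ 0 := fun h => hdet (congrFun h ())
  let A : (Fin s × (Fin b₁ ⊕ Fin b)) → W → K := fun x =>
    Sum.elim (fun _ => a x.1) (fun _ => y x.1) x.2
  have hA : ∀ x, A x ≠ 0 := by
    rintro ⟨j, x | x⟩
    · exact ha j
    · exact hy j
  have hz' : ∀ v : AbsoluteValue K ℝ, (⨆ k, v (z k)) = v M.det := fun v => by
    simp [z]
  have hprod : ∀ v : AbsoluteValue K ℝ, ∏ x, (⨆ w, v (A x w)) =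
      ∏ j, ((⨆ w, v (a j w)) ^ b₁ * (⨆ w, v (y j w)) ^ b) := fun v => by
    rw [← glob_prod]
    refine Finset.prod_congr rfl ?_
    rintro ⟨j, x | x⟩ _ <;> rfl
  have hsum : ∑ x, logHeight (A x) = ∑ j, (b₁ * logHeight (a j) + b * logHeight (y j)) := by
    rw [← glob_sum]
    refine Finset.sum_congr rfl ?_
    rintro ⟨j, x | x⟩ _ <;> rfl
  have hfac : (1 : ℝ) ≤ s.factorial := by exact_mod_cast Nat.factorial_pos s
  have key := htq (K := K) (κ := Unit) (J := Fin s × (Fin b₁ ⊕ Fin b)) (σ := fun _ => W) z hz A hA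
    (s.factorial : ℝ) hfac
    (fun v _ => by
      rw [hz', hprod]
      exact glob_det_arch v M _ (hME v))
    (fun v hv => by
      rw [hz', hprod]
      exact glob_det_non v (isNonarchimedean v hv) M _ (hME v))
    {v} (by simpa using hv) (fun _ => τ) (by simpa using hτ)
    (fun v' hv' => by
      rw [Finset.mem_singleton] at hv'
      subst hv'
      rw [hz', hprod]
      exact hb)
  rw [hsum, Finset.sum_singleton] at key
  have h0 := (logHeight_nonneg z).trans key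
  have hlog : Real.log s.factorial ≤ s * Real.log s := by
    rw [← Real.log_pow]
    exact Real.log_le_log (by positivity) (by exact_mod_cast Nat.factorial_le_pow s)
  have : (totalWeight K : ℝ) * Real.log s.factorial ≤ totalWeight K * (s * Real.log s) :=
    mul_le_mul_of_nonneg_left hlog (Nat.cast_nonneg _)
  linarith

end Pool.Agent.Helper63.SAND
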