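import Pool.Agent.Helper63.SAND.Htq

/-!
Number of places at which the value of a tuple of forms is not primitive.
-/

open MvPolynomial Filter Topology
open scoped LinearAlgebra.Projectivization

namespace Pool.Agent.Helper63.SAND

open Pool.Agent.Helper90.KSC

private theorem goodq_int {K : Type*} [Field K] {W : Type*} [Finite W] {v : AbsoluteValue K ℝ}
    (hv : IsNonarchimedean v) {P : MvPolynomial W K} {e : ℕ} (hP : P.IsHomogeneous e)
    (hI : IntPoly v P) (a : W → K) : v (eval a P) ≤ (⨆ w, v (a w)) ^ e := by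
  refine (hv.eval_mvPolynomial_le hP a).trans ?_
  have h1 : (⨆ s : P.support, v (coeff s P)) ≤ 1 := Real.iSup_le (fun s => hI s) zero_le_one
  have h2 : 0 ≤ (⨆ w, v (a w)) ^ e := pow_nonneg (Real.iSup_nonneg_of_nonnegHomClass v _) e
  calc _ ≤ 1 * (⨆ w, v (a w)) ^ e := mul_le_mul_of_nonneg_right h1 h2
    _ = _ := one_mul _

/-- The coefficients of the forms, and `1`. -/
private noncomputable def goodqCf {K : Type*} [Field K] {W : Type*} (g : W → MvPolynomial W K)
    (s : Option (Σ w : W, (g w).support)) : K :=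
  s.elim 1 fun x => coeff x.2.1 (g x.1)

private theorem goodq_cf_one {K : Type*} [Field K] {W : Type*} [Finite W]
    (g : W → MvPolynomial W K) (v : AbsoluteValue K ℝ) : 1 ≤ ⨆ s, v (goodqCf g s) := by
  refine Finite.le_ciSup_of_le (f := fun s => v (goodqCf g s)) none ?_
  simp [goodqCf]

private theorem goodq_cf_coeff {K : Type*} [Field K] {W : Type*} [Finite W]
    (g : W → MvPolynomial W K) (v : AbsoluteValue K ℝ) (w : W) (d : W →₀ ℕ)
    (hd : d ∈ (g w).support) : v (coeff d (g w)) ≤ ⨆ s, v (goodqCf g s) := by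
  refine Finite.le_ciSup_of_le (f := fun s => v (goodqCf g s)) (some ⟨w, ⟨d, hd⟩⟩) ?_
  simp [goodqCf]

open Height Height.AdmissibleAbsValues in
private theorem goodq_one {K : Type*} [Field K] [NumberField K] {W : Type*} [Fintype W] (e : ℕ)
    (g : W → MvPolynomial W K) (hg : ∀ w, (g w).IsHomogeneous e) :
    ∃ C : ℝ, 0 ≤ C ∧ ∀ (a : W → K), a ≠ 0 → (∃ w, eval a (g w) ≠ 0) →
      ∀ (P : Finset ℕ) (v : ℕ → AbsoluteValue K ℝ), Set.InjOn v P →
        (∀ p ∈ P, 2 ≤ p ∧ v p ∈ nonarchAbsVal (K := K) ∧ (∀ w, IntPoly (v p) (g w)) ∧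
          (∀ z, v p z < 1 → v p z ≤ 1 / p) ∧
          (⨆ w, v p (eval a (g w))) ≠ (⨆ w, v p (a w)) ^ e) →
        (P.card : ℝ) * Real.log 2 ≤ C + e * logHeight a := by
  classical
  set c : ℝ := 1 + ∑ w, ((g w).support.card : ℝ) with hc
  have hc1 : 1 ≤ c := by
    have : 0 ≤ ∑ w, ((g w).support.card : ℝ) := Finset.sum_nonneg fun w _ => Nat.cast_nonneg _
    linarith
  refine ⟨totalWeight K * Real.log c + logHeight (goodqCf g), ?_, ?_⟩
  · have h1 := Real.log_nonneg hc1
    have h2 := logHeight_nonneg (goodqCf g)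
    positivity
  intro a ha hne P v hinj hP
  -- the data for `htq`
  let σ : Option (Fin e) → Type _ := fun j => j.elim (Option (Σ w : W, (g w).support)) fun _ => W
  have hσ : ∀ j, Finite (σ j) := by
    intro j
    cases j with
    | none => exact inferInstanceAs (Finite (Option (Σ w : W, (g w).support)))
    | some i => exact inferInstanceAs (Finite W)
  let A : ∀ j, σ j → K := fun j => match j with
    | none => goodqCf g
    | some _ => a
  have hA : ∀ j, A j ≠ 0 := by
    intro j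
    cases j with
    | none =>
      intro h
      have h2 : (1 : K) = 0 := congrFun h (none : Option (Σ w : W, (g w).support))
      exact one_ne_zero h2
    | some i => exact ha
  have hprod : ∀ u : AbsoluteValue K ℝ, ∏ j, ⨆ i, u (A j i) =
      (⨆ s, u (goodqCf g s)) * (⨆ w, u (a w)) ^ e := by
    intro u
    rw [Fintype.prod_option]
    simp only [A]
    congr 1
    simp [σ]
  have hκ : ∀ u : AbsoluteValue K ℝ, 0 ≤ (⨆ w, u (a w)) ^ e := fun u =>
    pow_nonneg (Real.iSup_nonneg_of_nonnegHomClass u _) e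
  set z : W → K := fun w => eval a (g w) with hz
  have hz0 : z ≠ 0 := by
    obtain ⟨w, hw⟩ := hne
    intro h
    exact hw (congrFun h w)
  have hnonarch : ∀ u ∈ nonarchAbsVal (K := K), (⨆ k, u (z k)) ≤ ∏ j, ⨆ i, u (A j i) := by
    intro u hu
    rw [hprod]
    have hB := goodq_cf_one g u
    refine Real.iSup_le (fun w => ?_) (mul_nonneg (zero_le_one.trans hB) (hκ u))
    refine ((isNonarchimedean _ hu).eval_mvPolynomial_le (hg w) a).trans ?_
    refine mul_le_mul_of_nonneg_right ?_ (hκ u)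
    exact Real.iSup_le (fun s => goodq_cf_coeff g u w s.1 s.2) (zero_le_one.trans hB)
  have harch : ∀ u ∈ archAbsVal (K := K), (⨆ k, u (z k)) ≤ c * ∏ j, ⨆ i, u (A j i) := by
    intro u _
    rw [hprod]
    have hB := goodq_cf_one g u
    have hB0 := zero_le_one.trans hB
    refine Real.iSup_le (fun w => ?_) (mul_nonneg (zero_le_one.trans hc1)
      (mul_nonneg hB0 (hκ u)))
    refine (u.eval_mvPolynomial_le (hg w) a).trans ?_
    rw [← mul_assoc]
    refine mul_le_mul_of_nonneg_right ?_ (hκ u)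
    have h1 : (AddMonoidAlgebra.coeff (g w)).sum (fun _ c ↦ u c) ≤
        ∑ s ∈ (g w).support, ⨆ s, u (goodqCf g s) := by
      rw [Finsupp.sum]
      exact Finset.sum_le_sum fun s hs => goodq_cf_coeff g u w s hs
    rw [Finset.sum_const, nsmul_eq_mul] at h1
    refine h1.trans (mul_le_mul_of_nonneg_right ?_ hB0)
    have h2 : ((g w).support.card : ℝ) ≤ ∑ w, ((g w).support.card : ℝ) :=
      Finset.single_le_sum (f := fun w => ((g w).support.card : ℝ))
        (fun w _ => Nat.cast_nonneg _) (Finset.mem_univ w)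
    linarith
  have hQb : ∀ u ∈ P.image v, (⨆ k, u (z k)) ≤ (1 / 2 : ℝ) * ∏ j, ⨆ i, u (A j i) := by
    intro u hu
    obtain ⟨p, hp, rfl⟩ := Finset.mem_image.1 hu
    obtain ⟨hp2, hnon, hint, hsmall, hneq⟩ := hP p hp
    rw [hprod]
    have hB := goodq_cf_one g (v p)
    have hB0 := zero_le_one.trans hB
    obtain ⟨i0, hi0⟩ : ∃ i, a i ≠ 0 := Function.ne_iff.mp ha
    have : Nonempty W := ⟨i0⟩
    obtain ⟨w0, hw0⟩ := exists_eq_ciSup_of_finite (f := fun w => v p (a w))
    have hpos : 0 < v p (a w0) := by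
      rw [hw0]
      exact ((v p).pos hi0).trans_le (Finite.le_ciSup (fun w => v p (a w)) i0)
    have ha0 : a w0 ≠ 0 := (v p).pos_iff.1 hpos
    have hle : ∀ w, v p (z w) ≤ (⨆ w, v p (a w)) ^ e := fun w =>
      goodq_int (isNonarchimedean _ hnon) (hg w) (hint w) a
    have hlt : (⨆ w, v p (z w)) < (⨆ w, v p (a w)) ^ e :=
      lt_of_le_of_ne (ciSup_le hle) hneq
    have hhalf : ∀ w, v p (z w) ≤ (1 / 2 : ℝ) * (⨆ w, v p (a w)) ^ e := by
      intro w
      have h1 : v p (z w / a w0 ^ e) < 1 := by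
        rw [map_div₀, map_pow, div_lt_one (pow_pos hpos e), hw0]
        exact (Finite.le_ciSup (fun w => v p (z w)) w).trans_lt hlt
      have h2 := hsmall _ h1
      rw [map_div₀, map_pow, div_le_iff₀ (pow_pos hpos e), hw0] at h2
      refine h2.trans (mul_le_mul_of_nonneg_right ?_ (hκ (v p)))
      have : (2 : ℝ) ≤ p := by exact_mod_cast hp2
      exact one_div_le_one_div_of_le (by norm_num) this
    refine (ciSup_le hhalf).trans ?_
    refine mul_le_mul_of_nonneg_left ?_ (by norm_num)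
    calc (⨆ w, v p (a w)) ^ e = 1 * (⨆ w, v p (a w)) ^ e := (one_mul _).symm
      _ ≤ _ := mul_le_mul_of_nonneg_right hB (hκ (v p))
  have key := htq z hz0 A hA c hc1 harch hnonarch (P.image v)
    (fun u hu => by
      obtain ⟨p, hp, rfl⟩ := Finset.mem_image.1 hu
      exact (hP p hp).2.1) (fun _ => 1 / 2) (fun _ _ => by norm_num) hQb
  rw [Finset.sum_const, Finset.card_image_of_injOn hinj, nsmul_eq_mul, Fintype.sum_option] at key
  have hA1 : logHeight (A none) = logHeight (goodqCf g) := rfl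
  have hA2 : ∑ i : Fin e, logHeight (A (some i)) = e * logHeight a := by
    simp only [A]
    simp [σ]
  rw [hA1, hA2] at key
  have h0 := logHeight_nonneg z
  have hl : Real.log (1 / 2) = -Real.log 2 := by
    rw [one_div, Real.log_inv]
  rw [hl] at key
  linarith

open Height Height.AdmissibleAbsValues in
theorem goodq {K : Type*} [Field K] [NumberField K] {W T : Type*} [Fintype W] [Finite T] (e : ℕ)
    (G : T → W → MvPolynomial W K) (hG : ∀ t w, (G t w).IsHomogeneous e) :
    ∃ C : ℝ, 0 ≤ C ∧ ∀ (a : W → K) (t : T), a ≠ 0 → (∃ w, eval a (G t w) ≠ 0) →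
      ∀ (P : Finset ℕ) (v : ℕ → AbsoluteValue K ℝ), Set.InjOn v P →
        (∀ p ∈ P, 2 ≤ p ∧ v p ∈ nonarchAbsVal (K := K) ∧ (∀ w, IntPoly (v p) (G t w)) ∧
          (∀ z, v p z < 1 → v p z ≤ 1 / p) ∧
          (⨆ w, v p (eval a (G t w))) ≠ (⨆ w, v p (a w)) ^ e) →
        (P.card : ℝ) * Real.log 2 ≤ C + e * logHeight a := by
  have := Fintype.ofFinite T
  choose C hC0 hC using fun t => goodq_one e (G t) (hG t)
  refine ⟨∑ t, C t, Finset.sum_nonneg fun t _ => hC0 t, ?_⟩
  intro a t ha hne P v hinj hP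
  have h1 := hC t a ha hne P v hinj hP
  have h2 : C t ≤ ∑ t, C t := Finset.single_le_sum (fun t _ => hC0 t) (Finset.mem_univ t)
  linarith

end Pool.Agent.Helper63.SAND
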