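import Pool.Agent.Helper63.SAND.Defs

/-!
# The Hilbert function: normalised matching for standard monomials
-/

open MvPolynomial Filter Topology
open scoped LinearAlgebra.Projectivization

namespace Pool.Agent.Helper63.SAND

section HilbAux

/-- The elements of a finite linearly ordered family which are not in the span of the previous ones
are a basis of the span. -/
theorem hilb_greedy {K V ι : Type*} [Field K] [AddCommGroup V] [Module K V] [LinearOrder ι]
    (v : ι → V) (E : Finset ι) : ∀ S : Finset ι,
    (∀ α, α ∈ S ↔ α ∈ E ∧ v α ∉ Submodule.span K (v '' {β | β ∈ E ∧ β < α})) →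
    LinearIndepOn K v (S : Set ι) ∧
      Submodule.span K (v '' (S : Set ι)) = Submodule.span K (v '' (E : Set ι)) := by
  classical
  induction E using Finset.induction_on_max with
  | empty =>
    intro S hS
    have hS0 : S = ∅ := by
      ext α
      rw [hS]
      simp
    subst hS0
    constructor
    · simp
    · simp
  | insert a s h ih =>
    intro S hS
    obtain ⟨hi, hsp⟩ := ih (s.filter fun α => v α ∉ Submodule.span K (v '' {β | β ∈ s ∧ β < α}))
      (fun α => by rw [Finset.mem_filter])
    set S₀ := s.filter fun α => v α ∉ Submodule.span K (v '' {β | β ∈ s ∧ β < α}) with hS₀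
    have ha : a ∉ s := fun h' => lt_irrefl _ (h a h')
    have hset1 : ∀ α ∈ s, {β | β ∈ insert a s ∧ β < α} = {β | β ∈ s ∧ β < α} := by
      intro α hα
      ext β
      simp only [Finset.mem_insert, Set.mem_ofPred_eq]
      constructor
      · rintro ⟨rfl | h1, h2⟩
        · exact absurd h2 (not_lt.2 (h α hα).le)
        · exact ⟨h1, h2⟩
      · rintro ⟨h1, h2⟩
        exact ⟨Or.inr h1, h2⟩
    have hset2 : {β | β ∈ insert a s ∧ β < a} = (s : Set ι) := by
      ext β
      simp only [Finset.mem_insert, Set.mem_ofPred_eq, Finset.mem_coe]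
      constructor
      · rintro ⟨rfl | h1, h2⟩
        · exact absurd h2 (lt_irrefl _)
        · exact h1
      · intro h1
        exact ⟨Or.inr h1, h β h1⟩
    by_cases hva : v a ∈ Submodule.span K (v '' (s : Set ι))
    · have hSS : S = S₀ := by
        ext α
        rw [hS, hS₀, Finset.mem_filter, Finset.mem_insert]
        constructor
        · rintro ⟨rfl | h1, h2⟩
          · rw [hset2] at h2
            exact absurd hva h2
          · rw [hset1 α h1] at h2
            exact ⟨h1, h2⟩
        · rintro ⟨h1, h2⟩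
          refine ⟨Or.inr h1, ?_⟩
          rw [hset1 α h1]
          exact h2
      rw [hSS]
      refine ⟨hi, ?_⟩
      rw [hsp, Finset.coe_insert, Set.image_insert_eq, Submodule.span_insert_eq_span hva]
    · have hSS : S = insert a S₀ := by
        ext α
        rw [hS, Finset.mem_insert, Finset.mem_insert, hS₀, Finset.mem_filter]
        constructor
        · rintro ⟨rfl | h1, h2⟩
          · exact Or.inl rfl
          · rw [hset1 α h1] at h2
            exact Or.inr ⟨h1, h2⟩
        · rintro (rfl | ⟨h1, h2⟩)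
          · refine ⟨Or.inl rfl, ?_⟩
            rw [hset2]
            exact hva
          · refine ⟨Or.inr h1, ?_⟩
            rw [hset1 α h1]
            exact h2
      rw [hSS, Finset.coe_insert]
      refine ⟨hi.insert (by rw [hsp]; exact hva), ?_⟩
      rw [Finset.coe_insert, Set.image_insert_eq, Set.image_insert_eq,
        Submodule.span_insert, Submodule.span_insert, hsp]

variable {K : Type*} [Field K] {Ω W : Type*} [Fintype W]

/-- The function on `Ω` given by a monomial. -/
noncomputable def mfun (a : Ω → W → K) (α : W →₀ ℕ) : Ω → K :=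
  fun x => eval (a x) (monomial α (1 : K))

omit [Fintype W] in
theorem mfun_add (a : Ω → W → K) (α β : W →₀ ℕ) : mfun a (α + β) = mfun a α * mfun a β := by
  funext x
  simp only [mfun, Pi.mul_apply]
  rw [← map_mul, monomial_mul, one_mul]

/-- The exponents of degree `k`. -/
noncomputable def expo (W : Type*) [Fintype W] (k : ℕ) : Finset (W →₀ ℕ) := by
  classical
  exact Finset.finsuppAntidiag Finset.univ k

theorem mem_expo {k : ℕ} {α : W →₀ ℕ} : α ∈ expo W k ↔ α.degree = k := by
  classical
  unfold expo
  rw [Finset.mem_finsuppAntidiag, Finsupp.degree_eq_sum]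
  simp

theorem formsOn_eq_span (a : Ω → W → K) (k : ℕ) :
    formsOn a k = Submodule.span K (mfun a '' {α | α.degree = k}) := by
  classical
  apply le_antisymm
  · rintro _ ⟨P, hP, rfl⟩
    have hP' : P.IsHomogeneous k := hP
    have h1 : (LinearMap.pi fun x => (aeval (a x)).toLinearMap : MvPolynomial W K →ₗ[K] (Ω → K)) P
        = ∑ d ∈ P.support, P.coeff d • mfun a d := by
      funext x
      rw [Finset.sum_apply]
      simp only [LinearMap.pi_apply, AlgHom.toLinearMap_apply, mfun, Pi.smul_apply, smul_eq_mul]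
      conv_lhs => rw [P.as_sum, map_sum]
      refine Finset.sum_congr rfl fun d _ => ?_
      rw [aeval_monomial, eval_monomial]
      simp
    rw [h1]
    refine Submodule.sum_mem _ fun d hd => Submodule.smul_mem _ _ (Submodule.subset_span ?_)
    refine ⟨d, ?_, rfl⟩
    have h2 := hP' (mem_support_iff.1 hd)
    change d.degree = k
    rw [Finsupp.degree_eq_weight_one (R := ℕ)]
    exact h2
  · rw [Submodule.span_le]
    rintro _ ⟨α, hα, rfl⟩
    refine ⟨monomial α (1 : K), ?_, ?_⟩
    · exact isHomogeneous_monomial _ hα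
    · funext x
      simp only [LinearMap.pi_apply, AlgHom.toLinearMap_apply, mfun]
      rw [aeval_monomial, eval_monomial]
      simp

end HilbAux

section Hilb

variable {K : Type*} [Field K] {Ω W : Type*} [Fintype W]

theorem hilb (a : Ω → W → K) (k : ℕ) :
    (k + 1) * hil a (k + 1) ≤ (k + Fintype.card W) * hil a k := by
  classical
  let _ : LinearOrder W := LinearOrder.lift' (Fintype.equivFin W) (Fintype.equivFin W).injective
  -- standard exponents
  set v : Lex (W →₀ ℕ) → (Ω → K) := fun α => mfun a (ofLex α) with hv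
  set E : ℕ → Finset (Lex (W →₀ ℕ)) := fun k => (expo W k).map toLex.toEmbedding with hE
  have hmemE : ∀ k (α : Lex (W →₀ ℕ)), α ∈ E k ↔ (ofLex α).degree = k := by
    intro k α
    rw [hE]
    simp only [Finset.mem_map_equiv]
    exact mem_expo
  set S : ℕ → Finset (Lex (W →₀ ℕ)) := fun k =>
    (E k).filter fun α => v α ∉ Submodule.span K (v '' {β | β ∈ E k ∧ β < α}) with hS
  have hmemS : ∀ k α, α ∈ S k ↔ α ∈ E k ∧ v α ∉ Submodule.span K (v '' {β | β ∈ E k ∧ β < α}) :=
    fun k α => by rw [hS]; exact Finset.mem_filter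
  have hcard : ∀ k, hil a k = (S k).card := by
    intro k
    obtain ⟨hi, hsp⟩ := hilb_greedy (K := K) v (E k) (S k) (hmemS k)
    have h1 : formsOn a k = Submodule.span K (v '' (E k : Set (Lex (W →₀ ℕ)))) := by
      rw [formsOn_eq_span]
      congr 1
      ext f
      constructor
      · rintro ⟨α, hα, rfl⟩
        exact ⟨toLex α, Finset.mem_coe.2 ((hmemE k _).2 hα), rfl⟩
      · rintro ⟨α, hα, rfl⟩
        exact ⟨ofLex α, (hmemE k _).1 (Finset.mem_coe.1 hα), rfl⟩
    unfold hil
    rw [h1, ← hsp]
    have h2 := finrank_span_eq_card hi.linearIndependent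
    have h3 : (Set.range fun x : ((S k : Set (Lex (W →₀ ℕ))) : Type _) => v x) =
        v '' (S k : Set (Lex (W →₀ ℕ))) := by
      ext f
      constructor
      · rintro ⟨x, rfl⟩
        exact ⟨x, x.2, rfl⟩
      · rintro ⟨x, hx, rfl⟩
        exact ⟨⟨x, hx⟩, rfl⟩
    rw [h3] at h2
    rw [h2]
    exact Fintype.card_coe (S k)
  -- a divisor of a standard monomial is standard
  have hdiv : ∀ k (α : Lex (W →₀ ℕ)) (w : W), α ∈ S (k + 1) → 1 ≤ (ofLex α) w →
      toLex (ofLex α - Finsupp.single w 1) ∈ S k := by
    intro k α w hα hw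
    rw [hmemS] at hα ⊢
    set γ : W →₀ ℕ := ofLex α - Finsupp.single w 1 with hγ
    have hle : Finsupp.single w 1 ≤ ofLex α := by
      rw [Finsupp.single_le_iff]
      exact hw
    have hadd : γ + Finsupp.single w 1 = ofLex α := tsub_add_cancel_of_le hle
    have hdeg : γ.degree = k := by
      have h1 := (hmemE _ _).1 hα.1
      rw [← hadd, map_add] at h1
      simp at h1
      exact h1
    refine ⟨(hmemE _ _).2 hdeg, fun hmem => hα.2 ?_⟩
    have h1 : v α = LinearMap.mulRight K (mfun a (Finsupp.single w 1)) (v (toLex γ)) := by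
      rw [LinearMap.mulRight_apply, hv]
      simp only [ofLex_toLex]
      rw [← hadd, mfun_add]
    rw [h1]
    have h2 := Submodule.mem_map_of_mem (f := LinearMap.mulRight K (mfun a (Finsupp.single w 1)))
      hmem
    rw [Submodule.map_span] at h2
    refine Submodule.span_mono ?_ h2
    rintro _ ⟨_, ⟨β, ⟨hβ1, hβ2⟩, rfl⟩, rfl⟩
    refine ⟨β + toLex (Finsupp.single w 1), ⟨?_, ?_⟩, ?_⟩
    · rw [hmemE, ofLex_add, map_add, (hmemE _ _).1 hβ1]
      simp
    · have h3 : β + toLex (Finsupp.single w 1) < toLex γ + toLex (Finsupp.single w 1) :=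
        add_lt_add_left hβ2 _
      rw [← toLex_add, hadd, toLex_ofLex] at h3
      exact h3
    · rw [LinearMap.mulRight_apply, hv]
      simp only [ofLex_add, ofLex_toLex]
      rw [mfun_add]
  rw [hcard, hcard]
  -- count pairs
  have h1 : (k + 1) * (S (k + 1)).card = ∑ w : W, ∑ α ∈ S (k + 1), (ofLex α) w := by
    rw [Finset.sum_comm]
    have h2 : ∀ α ∈ S (k + 1), ∑ w : W, (ofLex α) w = k + 1 := by
      intro α hα
      have h3 := (hmemE _ _).1 ((hmemS _ _).1 hα).1
      rw [Finsupp.degree_eq_sum] at h3
      exact h3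
    rw [Finset.sum_congr rfl h2, Finset.sum_const, smul_eq_mul, mul_comm]
  have h2 : ∀ w : W, ∑ α ∈ S (k + 1), (ofLex α) w ≤ ∑ γ ∈ S k, ((ofLex γ) w + 1) := by
    intro w
    have h3 : ∑ α ∈ S (k + 1), (ofLex α) w =
        ∑ α ∈ (S (k + 1)).filter (fun α => 1 ≤ (ofLex α) w), (ofLex α) w := by
      rw [Finset.sum_filter (s := S (k + 1)) (fun α : Lex (W →₀ ℕ) => 1 ≤ (ofLex α) w)]
      refine Finset.sum_congr rfl fun α _ => ?_
      by_cases h4 : 1 ≤ (ofLex α) w
      · rw [if_pos h4]
      · rw [if_neg h4]
        omega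
    have hadd : ∀ α : Lex (W →₀ ℕ), 1 ≤ (ofLex α) w →
        (ofLex α - Finsupp.single w 1) + Finsupp.single w 1 = ofLex α := by
      intro α hα
      apply tsub_add_cancel_of_le
      rw [Finsupp.single_le_iff]
      exact hα
    have hinj : Set.InjOn (fun α : Lex (W →₀ ℕ) => toLex (ofLex α - Finsupp.single w 1))
        ((S (k + 1)).filter (fun α => 1 ≤ (ofLex α) w) : Finset (Lex (W →₀ ℕ))) := by
      intro α hα β hβ hab
      have hα' := (Finset.mem_filter.1 (Finset.mem_coe.1 hα)).2
      have hβ' := (Finset.mem_filter.1 (Finset.mem_coe.1 hβ)).2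
      have h5 : ofLex α - Finsupp.single w 1 = ofLex β - Finsupp.single w 1 := hab
      have h6 : ofLex α = ofLex β := by
        rw [← hadd α hα', ← hadd β hβ', h5]
      exact h6
    have h4 : ∑ α ∈ (S (k + 1)).filter (fun α => 1 ≤ (ofLex α) w), (ofLex α) w =
        ∑ γ ∈ ((S (k + 1)).filter (fun α => 1 ≤ (ofLex α) w)).image
          (fun α : Lex (W →₀ ℕ) => toLex (ofLex α - Finsupp.single w 1)), ((ofLex γ) w + 1) := by
      rw [Finset.sum_image hinj]
      refine Finset.sum_congr rfl fun α hα => ?_
      have h5 := (Finset.mem_filter.1 hα).2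
      have h6 := DFunLike.congr_fun (hadd α h5) w
      rw [Finsupp.add_apply, Finsupp.single_eq_same] at h6
      rw [ofLex_toLex]
      exact h6.symm
    rw [h3, h4]
    refine Finset.sum_le_sum_of_subset ?_
    intro γ hγ
    obtain ⟨α, hα, rfl⟩ := Finset.mem_image.1 hγ
    rw [Finset.mem_filter] at hα
    exact hdiv k α w hα.1 hα.2
  have h3 : ∑ w : W, ∑ γ ∈ S k, ((ofLex γ) w + 1) = (k + Fintype.card W) * (S k).card := by
    rw [Finset.sum_comm]
    have h4 : ∀ γ ∈ S k, ∑ w : W, ((ofLex γ) w + 1) = k + Fintype.card W := by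
      intro γ hγ
      have h5 := (hmemE _ _).1 ((hmemS _ _).1 hγ).1
      rw [Finsupp.degree_eq_sum] at h5
      rw [Finset.sum_add_distrib, h5]
      simp
    rw [Finset.sum_congr rfl h4, Finset.sum_const, smul_eq_mul, mul_comm]
  rw [h1, ← h3]
  exact Finset.sum_le_sum fun w _ => h2 w

end Hilb

end Pool.Agent.Helper63.SAND
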