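import Pool.Agent.Helper63.SAND.Hilb

/-!
# The Hilbert function: growth, crude bound, bases of monomials
-/

open MvPolynomial Filter Topology
open scoped LinearAlgebra.Projectivization

namespace Pool.Agent.Helper63.SAND

section Hilb

variable {K : Type*} [Field K] {Ω W : Type*} [Fintype W]

private lemma hilb2_bern (k m : ℕ) : (k + 1 + m) * (k + 1) ^ m ≤ (k + 1) * (k + 2) ^ m := by
  induction m with
  | zero => simp
  | succ m ih =>
    calc (k + 1 + (m + 1)) * (k + 1) ^ (m + 1)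
        = ((k + 1 + (m + 1)) * (k + 1)) * (k + 1) ^ m := by ring
      _ ≤ ((k + 2) * (k + 1 + m)) * (k + 1) ^ m := by
          apply Nat.mul_le_mul_right
          nlinarith
      _ = (k + 2) * ((k + 1 + m) * (k + 1) ^ m) := by ring
      _ ≤ (k + 2) * ((k + 1) * (k + 2) ^ m) := Nat.mul_le_mul_left _ ih
      _ = (k + 1) * (k + 2) ^ (m + 1) := by ring

private lemma hilb2_step (a : Ω → W → K) (k : ℕ) :
    hil a (k + 1) * (k + 1) ^ Fintype.card W ≤ hil a k * (k + 2) ^ Fintype.card W := by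
  set m := Fintype.card W with hm
  have h1 := hilb a k
  have h2 := hilb2_bern k m
  refine Nat.le_of_mul_le_mul_left ?_ (Nat.succ_pos k)
  calc (k + 1) * (hil a (k + 1) * (k + 1) ^ m)
      = ((k + 1) * hil a (k + 1)) * (k + 1) ^ m := by ring
    _ ≤ ((k + m) * hil a k) * (k + 1) ^ m := Nat.mul_le_mul_right _ h1
    _ ≤ ((k + 1 + m) * hil a k) * (k + 1) ^ m := by
        apply Nat.mul_le_mul_right
        apply Nat.mul_le_mul_right
        omega
    _ = hil a k * ((k + 1 + m) * (k + 1) ^ m) := by ring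
    _ ≤ hil a k * ((k + 1) * (k + 2) ^ m) := Nat.mul_le_mul_left _ h2
    _ = (k + 1) * (hil a k * (k + 2) ^ m) := by ring

private lemma hilb2_iter (a : Ω → W → K) (b₁ j : ℕ) :
    hil a (b₁ + j) * (b₁ + 1) ^ Fintype.card W ≤ hil a b₁ * (b₁ + j + 1) ^ Fintype.card W := by
  set m := Fintype.card W with hm
  induction j with
  | zero => exact le_refl _
  | succ j ih =>
    have h1 := hilb2_step a (b₁ + j)
    rw [← hm] at h1
    refine Nat.le_of_mul_le_mul_left ?_ (pow_pos (Nat.succ_pos (b₁ + j)) m)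
    calc (b₁ + j).succ ^ m * (hil a (b₁ + (j + 1)) * (b₁ + 1) ^ m)
        = (hil a (b₁ + j + 1) * (b₁ + j + 1) ^ m) * (b₁ + 1) ^ m := by
          rw [Nat.succ_eq_add_one, ← add_assoc]; ring
      _ ≤ (hil a (b₁ + j) * (b₁ + j + 2) ^ m) * (b₁ + 1) ^ m := Nat.mul_le_mul_right _ h1
      _ = (hil a (b₁ + j) * (b₁ + 1) ^ m) * (b₁ + j + 2) ^ m := by ring
      _ ≤ (hil a b₁ * (b₁ + j + 1) ^ m) * (b₁ + j + 2) ^ m := Nat.mul_le_mul_right _ ih
      _ = (b₁ + j).succ ^ m * (hil a b₁ * (b₁ + (j + 1) + 1) ^ m) := by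
          rw [Nat.succ_eq_add_one, show b₁ + (j + 1) + 1 = b₁ + j + 2 by omega]; ring

theorem hilb2 (a : Ω → W → K) (b₁ lam : ℕ) (hlam : 1 ≤ lam) :
    hil a (lam * (b₁ + 1) - 1) ≤ lam ^ Fintype.card W * hil a b₁ := by
  obtain ⟨t, rfl⟩ : ∃ t, lam = t + 1 := ⟨lam - 1, by omega⟩
  have h0 : (t + 1) * (b₁ + 1) - 1 = b₁ + t * (b₁ + 1) := by
    rw [add_mul, one_mul]
    omega
  have h1 := hilb2_iter a b₁ (t * (b₁ + 1))
  have h2 : b₁ + t * (b₁ + 1) + 1 = (t + 1) * (b₁ + 1) := by ring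
  rw [h2, mul_pow] at h1
  rw [h0]
  refine Nat.le_of_mul_le_mul_right ?_ (pow_pos (Nat.succ_pos b₁) (Fintype.card W))
  calc hil a (b₁ + t * (b₁ + 1)) * (b₁.succ) ^ Fintype.card W
      ≤ hil a b₁ * ((t + 1) ^ Fintype.card W * (b₁ + 1) ^ Fintype.card W) := h1
    _ = (t + 1) ^ Fintype.card W * hil a b₁ * b₁.succ ^ Fintype.card W := by
        rw [Nat.succ_eq_add_one]; ring

theorem hil_le (a : Ω → W → K) (k : ℕ) : hil a k ≤ (k + 1) ^ Fintype.card W := by
  classical
  have h1 : formsOn a k = Submodule.span K (((expo W k).image (mfun a) : Finset (Ω → K)) :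
      Set (Ω → K)) := by
    rw [formsOn_eq_span, Finset.coe_image]
    congr 2
    ext α
    exact mem_expo.symm
  unfold hil
  rw [h1]
  refine (finrank_span_finset_le_card _).trans (Finset.card_image_le.trans ?_)
  have h2 : (Finset.univ : Finset (W → Fin (k + 1))).card = (k + 1) ^ Fintype.card W := by
    rw [Finset.card_univ]
    simp
  rw [← h2]
  refine Finset.card_le_card_of_injOn
    (fun α w => (⟨min (α w) k, by omega⟩ : Fin (k + 1))) (fun _ _ => Finset.mem_coe.2
      (Finset.mem_univ _)) ?_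
  have hle : ∀ α : W →₀ ℕ, α ∈ expo W k → ∀ w, α w ≤ k := by
    intro α hα w
    rw [mem_expo, Finsupp.degree_eq_sum] at hα
    rw [← hα]
    exact Finset.single_le_sum (f := fun w => α w) (fun _ _ => Nat.zero_le _) (Finset.mem_univ w)
  intro α hα β hβ hab
  ext w
  have h3 := congrArg Fin.val (congrFun hab w)
  simp only at h3
  rw [min_eq_left (hle α (Finset.mem_coe.1 hα) w), min_eq_left (hle β (Finset.mem_coe.1 hβ) w)]
    at h3
  exact h3

theorem monomial_basis (a : Ω → W → K) (k : ℕ) :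
    ∃ ex : Fin (hil a k) → (W →₀ ℕ), (∀ i, (ex i).degree = k) ∧
      LinearIndependent K fun i => fun x : Ω => eval (a x) (monomial (ex i) (1 : K)) := by
  classical
  obtain ⟨κ, e, hinj, hspan, hli⟩ := exists_linearIndependent' K
    (fun α : expo W k => mfun a (α : W →₀ ℕ))
  have : Finite κ := Finite.of_injective e hinj
  let _ := Fintype.ofFinite κ
  have h1 : formsOn a k = Submodule.span K (Set.range fun α : expo W k =>
      mfun a (α : W →₀ ℕ)) := by
    rw [formsOn_eq_span]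
    congr 1
    ext f
    constructor
    · rintro ⟨α, hα, rfl⟩
      exact ⟨⟨α, mem_expo.2 hα⟩, rfl⟩
    · rintro ⟨α, rfl⟩
      exact ⟨α, mem_expo.1 α.2, rfl⟩
  have h2 : hil a k = Fintype.card κ := by
    unfold hil
    rw [h1, ← hspan]
    exact finrank_span_eq_card hli
  have h3 : Nonempty (Fin (hil a k) ≃ κ) := by
    rw [h2]
    exact ⟨(Fintype.equivFin κ).symm⟩
  obtain ⟨φ⟩ := h3
  refine ⟨fun i => (e (φ i) : W →₀ ℕ), fun i => mem_expo.1 (e (φ i)).2, ?_⟩
  exact hli.comp φ φ.injective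

end Hilb

end Pool.Agent.Helper63.SAND
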