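import Mathlib

/-!
SAND, module HPOLY: the height of the values of polynomials at integer points.
-/

open MvPolynomial

namespace Pool.Agent.Helper63.SAND

private theorem hpoly_abv_int {K : Type*} [Field K] (v : AbsoluteValue K ℝ) (n : ℤ) :
    v (n : K) ≤ |(n : ℝ)| := by
  rcases Int.natAbs_eq n with h | h
  · rw [h]
    simpa using v.apply_nat_le_self n.natAbs
  · rw [h]
    simpa using v.apply_nat_le_self n.natAbs

private theorem hpoly_int {K : Type*} [Field K] [NumberField K] {ι : Type*} [Finite ι]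
    (x : ι → ℤ) (i₀ : ι) (hi : x i₀ = 1) (M : ℝ) (hx : ∀ i, |(x i : ℝ)| ≤ M) :
    Height.logHeight (fun i => (x i : K)) ≤ Height.totalWeight K * Real.log M := by
  have hM : 1 ≤ M := by
    have := hx i₀
    rw [hi] at this
    simpa using this
  have hne : (fun i => (x i : K)) ≠ 0 := by
    intro h
    have := congrFun h i₀
    simp [hi] at this
  have hnon : Nonempty ι := ⟨i₀⟩
  have h1 : Height.mulHeight (fun i => (x i : K)) ≤ M ^ Height.totalWeight K := by
    rw [Height.mulHeight_eq hne]
    have hfin : ∏ᶠ v : Height.AdmissibleAbsValues.nonarchAbsVal (K := K),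
        ⨆ i, v.val (x i : K) = 1 := by
      refine finprod_eq_one_of_forall_eq_one fun v => ?_
      refine le_antisymm (ciSup_le fun i => ?_) ?_
      · exact IsNonarchimedean.apply_intCast_le_one
          (Height.AdmissibleAbsValues.isNonarchimedean _ v.prop)
      · refine Finite.le_ciSup_of_le i₀ ?_
        rw [hi]
        simp
    rw [hfin, mul_one]
    calc (Multiset.map (fun v => ⨆ i, v (x i : K))
          (Height.AdmissibleAbsValues.archAbsVal (K := K))).prod
        ≤ (Multiset.map (fun _ => M) (Height.AdmissibleAbsValues.archAbsVal (K := K))).prod := by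
          refine Multiset.prod_map_le_prod_map₀ _ _
            (fun v _ => Real.iSup_nonneg_of_nonnegHomClass v _) fun v _ => ?_
          exact ciSup_le fun i => (hpoly_abv_int v (x i)).trans (hx i)
      _ = M ^ Height.totalWeight K := by
          rw [Multiset.map_const', Multiset.prod_replicate]
          rfl
  rw [Height.logHeight_eq_log_mulHeight]
  calc Real.log (Height.mulHeight fun i => (x i : K))
      ≤ Real.log (M ^ Height.totalWeight K) :=
        Real.log_le_log (Height.mulHeight_pos _) h1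
    _ = Height.totalWeight K * Real.log M := Real.log_pow _ _

theorem hpoly {K : Type*} [Field K] [NumberField K] {κ : Type*} [Fintype κ] (d : ℕ)
    (R : κ → MvPolynomial (Fin d) K) :
    ∃ C : ℝ, 0 ≤ C ∧ ∀ (t : Fin d → ℤ) (T : ℕ), (∀ i, |t i| ≤ T) →
      Height.logHeight (fun j => eval (fun i => (t i : K)) (R j)) ≤
        C * (1 + Real.log (1 + T)) := by
  classical
  set S : Finset (Fin d →₀ ℕ) := insert 0 (Finset.univ.biUnion fun j => (R j).support) with hS
  set D : ℕ := S.sup fun s => ∑ i, s i with hD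
  set A : κ × S → K := fun p => coeff (p.2 : Fin d →₀ ℕ) (R p.1) with hA
  obtain ⟨W, hW⟩ : ∃ W : ℝ, W = (Height.totalWeight K : ℕ) := ⟨_, rfl⟩
  have hcard : 0 ≤ Real.log (Nat.card S) := Real.log_natCast_nonneg _
  have hA0 : 0 ≤ Height.logHeight A := Height.logHeight_nonneg _
  have hW0 : 0 ≤ W := by
    rw [hW]
    exact Nat.cast_nonneg _
  refine ⟨W * Real.log (Nat.card S) + Height.logHeight A + W * D, by positivity, ?_⟩
  intro t T ht
  have hlog : 0 ≤ Real.log (1 + T) := Real.log_nonneg (by
    have : (0 : ℝ) ≤ T := Nat.cast_nonneg _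
    linarith)
  have hev : (fun j => eval (fun i => (t i : K)) (R j)) =
      fun j => ∑ s : S, A (j, s) * ((∏ i, t i ^ ((s : Fin d →₀ ℕ) i) : ℤ) : K) := by
    funext j
    rw [eval_eq']
    have h1 : ∑ s : S, A (j, s) * ((∏ i, t i ^ ((s : Fin d →₀ ℕ) i) : ℤ) : K) =
        ∑ s ∈ S, coeff s (R j) * ∏ i, (t i : K) ^ (s i) := by
      rw [← Finset.sum_coe_sort S]
      refine Finset.sum_congr rfl fun s _ => ?_
      push_cast
      rfl
    rw [h1]
    refine Finset.sum_subset (fun s hs => ?_) (fun s _ hs => ?_)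
    · rw [hS]
      exact Finset.mem_insert_of_mem (Finset.mem_biUnion.2 ⟨j, Finset.mem_univ _, hs⟩)
    · rw [notMem_support_iff.1 hs, zero_mul]
  rw [hev]
  have h0 : (0 : Fin d →₀ ℕ) ∈ S := Finset.mem_insert_self _ _
  have hx : ∀ s : S, |((∏ i, t i ^ ((s : Fin d →₀ ℕ) i) : ℤ) : ℝ)| ≤ (1 + (T : ℝ)) ^ D := by
    intro s
    have h1T : (1 : ℝ) ≤ 1 + T := by
      have : (0 : ℝ) ≤ T := Nat.cast_nonneg _
      linarith
    calc |((∏ i, t i ^ ((s : Fin d →₀ ℕ) i) : ℤ) : ℝ)|
        = ∏ i, |(t i : ℝ)| ^ ((s : Fin d →₀ ℕ) i) := by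
          push_cast
          rw [Finset.abs_prod]
          exact Finset.prod_congr rfl fun i _ => abs_pow _ _
      _ ≤ ∏ i, (1 + (T : ℝ)) ^ ((s : Fin d →₀ ℕ) i) := by
          refine Finset.prod_le_prod (fun i _ => by positivity) fun i _ => ?_
          refine pow_le_pow_left₀ (abs_nonneg _) ?_ _
          have := ht i
          have h2 : |(t i : ℝ)| ≤ T := by
            exact_mod_cast this
          linarith
      _ = (1 + (T : ℝ)) ^ (∑ i, (s : Fin d →₀ ℕ) i) := Finset.prod_pow_eq_pow_sum _ _ _
      _ ≤ (1 + (T : ℝ)) ^ D := pow_le_pow_right₀ h1T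
          (Finset.le_sup (f := fun s : Fin d →₀ ℕ => ∑ i, s i) s.2)
  have h2 := hpoly_int (K := K) (fun s : S => ∏ i, t i ^ ((s : Fin d →₀ ℕ) i)) ⟨0, h0⟩
    (by simp) ((1 + (T : ℝ)) ^ D) hx
  have h3 := Height.logHeight_linearMap_apply_le A
    (fun s : S => ((∏ i, t i ^ ((s : Fin d →₀ ℕ) i) : ℤ) : K))
  rw [Real.log_pow, ← hW] at h2
  rw [← hW] at h3
  calc _ ≤ W * Real.log (Nat.card S) + Height.logHeight A +
        Height.logHeight (fun s : S => ((∏ i, t i ^ ((s : Fin d →₀ ℕ) i) : ℤ) : K)) := h3
    _ ≤ W * Real.log (Nat.card S) + Height.logHeight A + W * (D * Real.log (1 + T)) := by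
        gcongr
    _ ≤ (W * Real.log (Nat.card S) + Height.logHeight A + W * D) * (1 + Real.log (1 + T)) := by
        have e : (W * Real.log (Nat.card S) + Height.logHeight A + W * D) *
            (1 + Real.log (1 + T)) = W * Real.log (Nat.card S) + Height.logHeight A +
            W * (D * Real.log (1 + T)) + (W * D + (W * Real.log (Nat.card S) +
              Height.logHeight A) * Real.log (1 + T)) := by ring
        rw [e]
        have : 0 ≤ W * D + (W * Real.log (Nat.card S) + Height.logHeight A) *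
            Real.log (1 + T) := by positivity
        linarith

end Pool.Agent.Helper63.SAND
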