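import Pool.Agent.Helper63.SAND.Defs

/-!
Height inequality with deficits at finitely many finite places.
-/

open MvPolynomial Filter Topology
open scoped LinearAlgebra.Projectivization

namespace Pool.Agent.Helper63.SAND

open Pool.Agent.Helper90.KSC

open Height Height.AdmissibleAbsValues in
theorem htq_supp {K : Type*} [Field K] [AdmissibleAbsValues K] {κ : Type*} [Finite κ] {x : κ → K}
    (hx : x ≠ 0) :
    (fun v : nonarchAbsVal (K := K) ↦ ⨆ i, v.val (x i)).HasFiniteMulSupport := by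
  have : Nonempty {j // x j ≠ 0} := nonempty_subtype.mpr <| Function.ne_iff.mp hx
  suffices (fun v : nonarchAbsVal (K := K) ↦
      ⨆ i : {j // x j ≠ 0}, v.val (x i)).HasFiniteMulSupport by
    convert this with v
    obtain ⟨i, hi⟩ : ∃ j, x j ≠ 0 := Function.ne_iff.mp hx
    have : Nonempty κ := .intro i
    refine le_antisymm (ciSup_le fun j ↦ ?_) (ciSup_le fun ⟨j, hj⟩ ↦ Finite.le_ciSup_of_le j le_rfl)
    rcases eq_or_ne (x j) 0 with h | h
    · rw [h, v.val.map_zero]
      exact Real.iSup_nonneg' ⟨⟨i, hi⟩, v.val.nonneg ..⟩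
    · exact Finite.le_ciSup_of_le ⟨j, h⟩ le_rfl
  fun_prop (disch := grind)

open Height Height.AdmissibleAbsValues in
theorem htq {K : Type*} [Field K] [AdmissibleAbsValues K] {κ : Type*} [Finite κ] {J : Type*}
    [Fintype J] {σ : J → Type*} [∀ j, Finite (σ j)] (z : κ → K) (hz : z ≠ 0)
    (A : ∀ j, σ j → K) (hA : ∀ j, A j ≠ 0) (c : ℝ) (hc : 1 ≤ c)
    (harch : ∀ v ∈ archAbsVal (K := K), (⨆ k, v (z k)) ≤ c * ∏ j, ⨆ i, v (A j i))
    (hnon : ∀ v ∈ nonarchAbsVal (K := K), (⨆ k, v (z k)) ≤ ∏ j, ⨆ i, v (A j i))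
    (Q : Finset (AbsoluteValue K ℝ)) (hQ : ∀ v ∈ Q, v ∈ nonarchAbsVal (K := K))
    (τ : AbsoluteValue K ℝ → ℝ) (hτ : ∀ v ∈ Q, 0 < τ v)
    (hQb : ∀ v ∈ Q, (⨆ k, v (z k)) ≤ τ v * ∏ j, ⨆ i, v (A j i)) :
    logHeight z ≤ totalWeight K * Real.log c + ∑ v ∈ Q, Real.log (τ v) +
      ∑ j, logHeight (A j) := by
  classical
  set B : (∀ j, σ j) → K := fun I => ∏ j, A j (I j) with hBdef
  have hB : B ≠ 0 := by
    simp_rw [Function.ne_iff, Pi.zero_def] at hA ⊢
    choose f hf using hA
    exact ⟨f, Finset.prod_ne_zero_iff.mpr fun a _ ↦ hf a⟩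
  have hsup : ∀ v : AbsoluteValue K ℝ, (⨆ I, v (B I)) = ∏ j, ⨆ i, v (A j i) := by
    intro v
    simp_rw [hBdef, map_prod, Real.iSup_prod_eq_prod_iSup_of_nonnegHomClass]
  have hnn : ∀ v : AbsoluteValue K ℝ, 0 ≤ ⨆ I, v (B I) := fun v =>
    Real.iSup_nonneg_of_nonnegHomClass v _
  have hnz : ∀ v : AbsoluteValue K ℝ, 0 ≤ ⨆ k, v (z k) := fun v =>
    Real.iSup_nonneg_of_nonnegHomClass v _
  have hc0 : 0 < c := by linarith
  have key : mulHeight z ≤ c ^ totalWeight K * (∏ v ∈ Q, τ v) * ∏ j, mulHeight (A j) := by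
    rw [← mulHeight_fun_prod_eq hA, mulHeight_eq hz]
    change _ ≤ _ * mulHeight B
    rw [mulHeight_eq hB]
    have h1 : ((archAbsVal (K := K)).map fun v ↦ ⨆ i, v (z i)).prod ≤
        c ^ totalWeight K * ((archAbsVal (K := K)).map fun v ↦ ⨆ I, v (B I)).prod := by
      have : ((archAbsVal (K := K)).map fun v ↦ ⨆ i, v (z i)).prod ≤
          ((archAbsVal (K := K)).map fun v ↦ c * ⨆ I, v (B I)).prod :=
        Multiset.prod_map_le_prod_map₀ _ _ (fun v _ ↦ hnz v) fun v hv ↦ by
          rw [hsup]; exact harch v hv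
      refine this.trans (le_of_eq ?_)
      rw [Multiset.prod_map_mul, Multiset.map_const', Multiset.prod_replicate]
      rfl
    have h2 : ∏ᶠ v : nonarchAbsVal (K := K), (if v.val ∈ Q then τ v.val else 1) =
        ∏ v ∈ Q, τ v := by
      rw [finprod_eq_prod_of_mulSupport_subset (s := Q.subtype (· ∈ nonarchAbsVal (K := K)))]
      · rw [Finset.prod_subtype_of_mem (fun v => if v ∈ Q then τ v else 1) hQ]
        exact Finset.prod_congr rfl fun v hv => if_pos hv
      · intro v hv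
        simp only [Function.mem_mulSupport] at hv
        rw [Finset.mem_coe, Finset.mem_subtype]
        by_contra h
        exact hv (if_neg h)
    have hf2 : (fun v : nonarchAbsVal (K := K) =>
        (if v.val ∈ Q then τ v.val else 1)).HasFiniteMulSupport := by
      refine Set.Finite.subset (Finset.finite_toSet (Q.subtype (· ∈ nonarchAbsVal (K := K)))) ?_
      intro v hv
      simp only [Function.mem_mulSupport] at hv
      rw [Finset.mem_coe, Finset.mem_subtype]
      by_contra h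
      exact hv (if_neg h)
    have h3 : ∏ᶠ v : nonarchAbsVal (K := K), ⨆ i, v.val (z i) ≤
        (∏ v ∈ Q, τ v) * ∏ᶠ v : nonarchAbsVal (K := K), ⨆ I, v.val (B I) := by
      rw [← h2, ← finprod_mul_distrib hf2 (htq_supp hB)]
      refine finprod_le_finprod (htq_supp hz) (fun v => hnz v.val) (hf2.mul (htq_supp hB)) ?_
      intro v
      by_cases hv : v.val ∈ Q
      · simp only [if_pos hv]
        rw [hsup]
        exact hQb _ hv
      · simp only [if_neg hv, one_mul]
        rw [hsup]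
        exact hnon _ v.2
    calc _ ≤ (c ^ totalWeight K * ((archAbsVal (K := K)).map fun v ↦ ⨆ I, v (B I)).prod) *
        ((∏ v ∈ Q, τ v) * ∏ᶠ v : nonarchAbsVal (K := K), ⨆ I, v.val (B I)) := by
          refine mul_le_mul h1 h3 (finprod_nonneg fun v => hnz v.val) ?_
          refine mul_nonneg (by positivity) (Multiset.prod_map_nonneg fun v _ => hnn v)
      _ = _ := by ring
  have hQ0 : ∀ v ∈ Q, τ v ≠ 0 := fun v hv => (hτ v hv).ne'
  have hQ1 : 0 < ∏ v ∈ Q, τ v := Finset.prod_pos hτ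
  have hP : 0 < ∏ j, mulHeight (A j) := Finset.prod_pos fun j _ => mulHeight_pos _
  have := Real.log_le_log (mulHeight_pos z) key
  rw [Real.log_mul (mul_ne_zero (pow_ne_zero _ hc0.ne') hQ1.ne') hP.ne',
    Real.log_mul (pow_ne_zero _ hc0.ne') hQ1.ne', Real.log_pow, Real.log_prod hQ0,
    Real.log_prod (fun j _ => mulHeight_ne_zero _)] at this
  exact this

end Pool.Agent.Helper63.SAND
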