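import Pool.Agent.Helper63.SAND.Defs

/-!
Composition of local forms.
-/

open MvPolynomial Filter Topology
open scoped LinearAlgebra.Projectivization

namespace Pool.Agent.Helper63.SAND

open Pool.Agent.Helper90.KSC

/-! ### ITER -/

section Iter

variable {K : Type*} [Field K] {Ω W : Type*}

private theorem iter_eval_bind (a : W → K) {σ : Type*} (f : σ → MvPolynomial W K)
    (P : MvPolynomial σ K) : eval a (bind₁ f P) = eval (fun s => eval a (f s)) P := by
  exact eval₂Hom_bind₁ (RingHom.id K) a f P

/-- A form of degree `e` at a multiple of a vector. -/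
private theorem iter_eval_smul {σ : Type*} (P : MvPolynomial σ K) (e : ℕ)
    (hP : P.IsHomogeneous e) (c : K) (z : σ → K) :
    eval (fun s => c * z s) P = c ^ e * eval z P := by
  rw [eval_eq, eval_eq, Finset.mul_sum]
  refine Finset.sum_congr rfl fun d hd => ?_
  have h1 : ∏ i ∈ d.support, (c * z i) ^ d i = c ^ e * ∏ i ∈ d.support, z i ^ d i := by
    have h2 : ∏ i ∈ d.support, (c * z i) ^ d i =
        (∏ i ∈ d.support, c ^ d i) * ∏ i ∈ d.support, z i ^ d i := by
      rw [← Finset.prod_mul_distrib]
      exact Finset.prod_congr rfl fun i _ => mul_pow _ _ _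
    rw [h2, Finset.prod_pow_eq_pow_sum]
    have h3 : ∑ i ∈ d.support, d i = e := by
      have h4 := hP (mem_support_iff.1 hd)
      rw [← h4, Finsupp.weight_apply, Finsupp.sum]
      simp
    rw [h3]
  rw [h1]
  ring

/-- The values of the chart. -/
private theorem iter_chart_eval {T : Type*} (a : Ω → W → K) (F : Ω → Ω) (e : ℕ)
    (G : T → W → MvPolynomial W K) (hG : LocF a (fun x => a (F x)) e G) (n : ℕ) :
    ∀ (τ : Fin n → T) (x : Ω), ∃ c : K, ∀ w, eval (a x) (chart G n τ w) = c * a (F^[n] x) w := by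
  induction n with
  | zero =>
    intro τ x
    exact ⟨1, fun w => by simp [chart]⟩
  | succ n ih =>
    intro τ x
    obtain ⟨c, hc⟩ := ih (Fin.init τ) x
    obtain ⟨c', hc'⟩ := hG.2.1 (τ (Fin.last n)) (F^[n] x)
    refine ⟨c ^ e * c', fun w => ?_⟩
    have h1 : eval (a x) (chart G (n + 1) τ w) =
        eval (fun w' => c * a (F^[n] x) w') (G (τ (Fin.last n)) w) := by
      rw [chart, iter_eval_bind]
      congr 2
      funext w'
      exact hc w'
    rw [h1, iter_eval_smul _ e (hG.1 _ _), hc' w, Function.iterate_succ_apply']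
    ring

theorem chart_locF {T : Type*} (a : Ω → W → K) (ha0 : ∀ x, a x ≠ 0) (F : Ω → Ω) (e : ℕ)
    (G : T → W → MvPolynomial W K) (hG : LocF a (fun x => a (F x)) e G) (n : ℕ) :
    LocF a (fun x => a (F^[n] x)) (e ^ n) (chart G n) := by
  refine ⟨?_, ?_, ?_⟩
  · induction n with
    | zero =>
      intro τ w
      simpa [chart] using isHomogeneous_X K w
    | succ n ih =>
      intro τ w
      have h := (hG.1 (τ (Fin.last n)) w).aeval (chart G n (Fin.init τ)) (ih (Fin.init τ))
      rw [pow_succ]
      exact h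
  · exact iter_chart_eval a F e G hG n
  · intro x
    induction n with
    | zero =>
      obtain ⟨w, hw⟩ := Function.ne_iff.1 (ha0 x)
      exact ⟨Fin.elim0, w, by simpa [chart] using hw⟩
    | succ n ih =>
      obtain ⟨τ, w, hw⟩ := ih
      obtain ⟨c, hc⟩ := iter_chart_eval a F e G hG n τ x
      have hc0 : c ≠ 0 := by
        rintro rfl
        exact hw (by rw [hc w, zero_mul])
      obtain ⟨t, w', hw'⟩ := hG.2.2 (F^[n] x)
      refine ⟨Fin.snoc τ t, w', ?_⟩
      have h1 : eval (a x) (chart G (n + 1) (Fin.snoc τ t) w') =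
          eval (fun w'' => c * a (F^[n] x) w'') (G t w') := by
        have h2 : (Fin.init (Fin.snoc τ t : Fin (n + 1) → T)) = τ := Fin.init_snoc _ _
        have h3 : (Fin.snoc τ t : Fin (n + 1) → T) (Fin.last n) = t := Fin.snoc_last _ _
        rw [chart, iter_eval_bind, h2, h3]
        congr 2
        funext w''
        exact hc w''
      rw [h1, iter_eval_smul _ e (hG.1 _ _)]
      exact mul_ne_zero (pow_ne_zero _ hc0) hw'

/-! Integral polynomials. -/

section Int

variable {σ : Type*} (v : AbsoluteValue K ℝ)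

/-- The integral polynomials form a subring. -/
private noncomputable def iter_sub (hv : IsNonarchimedean v) : Subring (MvPolynomial σ K) where
  carrier := {P | IntPoly v P}
  mul_mem' := by
    intro P Q hP hQ d
    classical
    rw [coeff_mul]
    by_cases hne : (Finset.HasAntidiagonal.antidiagonal d).Nonempty
    · obtain ⟨b, _, hb⟩ := hv.finset_image_add_of_nonempty
        (fun x : (σ →₀ ℕ) × (σ →₀ ℕ) => coeff x.1 P * coeff x.2 Q) hne
      refine hb.trans ?_
      rw [map_mul]
      exact mul_le_one₀ (hP _) (v.nonneg _) (hQ _)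
    · rw [Finset.not_nonempty_iff_eq_empty.1 hne]
      simp
  one_mem' := by
    intro d
    classical
    rw [coeff_one]
    split_ifs <;> simp
  add_mem' := by
    intro P Q hP hQ d
    rw [coeff_add]
    exact (hv _ _).trans (max_le (hP _) (hQ _))
  zero_mem' := by
    intro d
    simp
  neg_mem' := by
    intro P hP d
    rw [coeff_neg, v.map_neg]
    exact hP d

private theorem iter_mem (hv : IsNonarchimedean v) (P : MvPolynomial σ K) : P ∈ iter_sub v hv ↔ IntPoly v P := Iff.rfl

private theorem iter_C (hv : IsNonarchimedean v) (c : K) (hc : v c ≤ 1) : (C c : MvPolynomial σ K) ∈ iter_sub v hv := by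
  intro d
  classical
  rw [coeff_C]
  split_ifs
  · exact hc
  · simp

private theorem iter_bind (hv : IsNonarchimedean v) {ρ : Type*} (f : σ → MvPolynomial ρ K) (hf : ∀ s, IntPoly v (f s))
    (P : MvPolynomial σ K) (hP : IntPoly v P) : IntPoly v (bind₁ f P) := by
  rw [← iter_mem v hv]
  have h : bind₁ f P = ∑ d ∈ P.support, C (coeff d P) * ∏ i ∈ d.support, f i ^ d i := by
    rw [bind₁, aeval_def, eval₂_eq]
    rfl
  rw [h]
  refine Subring.sum_mem _ fun d _ => ?_
  refine Subring.mul_mem _ (iter_C v hv _ (hP d)) ?_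
  refine Subring.prod_mem _ fun i _ => ?_
  exact Subring.pow_mem _ ((iter_mem v hv _).2 (hf i)) _

end Int

theorem chart_int {T : Type*} (v : AbsoluteValue K ℝ) (hv : IsNonarchimedean v)
    (G : T → W → MvPolynomial W K) (hG : ∀ t w, IntPoly v (G t w)) (n : ℕ) (τ : Fin n → T)
    (w : W) : IntPoly v (chart G n τ w) := by
  induction n generalizing w with
  | zero =>
    intro d
    classical
    rw [chart, coeff_X]
    split_ifs <;> simp
  | succ n ih => exact iter_bind v hv _ (fun w' => ih (Fin.init τ) w') _ (hG _ _)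

theorem chart_good {T : Type*} [Finite W] (v : AbsoluteValue K ℝ) (a : Ω → W → K) (F : Ω → Ω)
    (e : ℕ) (G : T → W → MvPolynomial W K) (hG : LocF a (fun x => a (F x)) e G) (x : Ω) (n : ℕ)
    (τ : Fin n → T)
    (hτ : ∀ i : Fin n, (⨆ w, v (eval (a (F^[i] x)) (G (τ i) w))) =
      (⨆ w, v (a (F^[i] x) w)) ^ e) :
    (⨆ w, v (eval (a x) (chart G n τ w))) = (⨆ w, v (a x w)) ^ (e ^ n) := by
  induction n with
  | zero => simp [chart]
  | succ n ih =>
    have hW : Nonempty W := by
      obtain ⟨_, w, _⟩ := hG.2.2 x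
      exact ⟨w⟩
    obtain ⟨c, hc⟩ := iter_chart_eval a F e G hG n (Fin.init τ) x
    have h0 : (⨆ w, v (eval (a x) (chart G n (Fin.init τ) w))) = (⨆ w, v (a x w)) ^ (e ^ n) := by
      refine ih (Fin.init τ) fun i => ?_
      exact hτ i.castSucc
    have h1 : (⨆ w, v (eval (a x) (chart G n (Fin.init τ) w))) =
        v c * ⨆ w, v (a (F^[n] x) w) := by
      rw [Real.mul_iSup_of_nonneg (v.nonneg c)]
      congr 1
      funext w
      rw [hc w, map_mul]
    have h2 : (⨆ w, v (eval (a x) (chart G (n + 1) τ w))) =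
        v c ^ e * ⨆ w, v (eval (a (F^[n] x)) (G (τ (Fin.last n)) w)) := by
      rw [Real.mul_iSup_of_nonneg (pow_nonneg (v.nonneg c) e)]
      congr 1
      funext w
      have h3 : eval (a x) (chart G (n + 1) τ w) =
          eval (fun w' => c * a (F^[n] x) w') (G (τ (Fin.last n)) w) := by
        rw [chart, iter_eval_bind]
        congr 2
        funext w'
        exact hc w'
      rw [h3, iter_eval_smul _ e (hG.1 _ _), map_mul, map_pow]
    have h4 := hτ (Fin.last n)
    simp only [Fin.val_last] at h4
    rw [h2, h4, ← mul_pow, ← h1, h0, ← pow_mul, pow_succ]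

end Iter

end Pool.Agent.Helper63.SAND
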