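import Pool.Agent.Helper63.SAND.Locdet

/-!
The local estimate for the determinant in one residue class.
-/

open MvPolynomial Filter Topology
open scoped LinearAlgebra.Projectivization

namespace Pool.Agent.Helper63.SAND

open Pool.Agent.Helper90.KSC

private lemma local_int_mul {K W : Type*} [Field K] (v : AbsoluteValue K ℝ)
    (hv : IsNonarchimedean v) {P Q : MvPolynomial W K} (hP : IntPoly v P) (hQ : IntPoly v Q) :
    IntPoly v (P * Q) := by
  classical
  intro d
  rw [coeff_mul]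
  obtain ⟨x, -, hx⟩ := hv.finset_image_add_of_nonempty
    (fun x : (W →₀ ℕ) × (W →₀ ℕ) => coeff x.1 P * coeff x.2 Q)
    (t := Finset.HasAntidiagonal.antidiagonal d)
    ⟨(0, d), by simp⟩
  refine hx.trans ?_
  rw [map_mul]
  exact mul_le_one₀ (hP _) (v.nonneg _) (hQ _)

private lemma local_int_one {K W : Type*} [Field K] (v : AbsoluteValue K ℝ) :
    IntPoly v (1 : MvPolynomial W K) := by
  classical
  intro d
  rw [coeff_one]
  split_ifs <;> simp

private lemma local_int_pow {K W : Type*} [Field K] (v : AbsoluteValue K ℝ)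
    (hv : IsNonarchimedean v) {P : MvPolynomial W K} (hP : IntPoly v P) (n : ℕ) :
    IntPoly v (P ^ n) := by
  induction n with
  | zero => rw [pow_zero]; exact local_int_one v
  | succ n ih => rw [pow_succ]; exact local_int_mul v hv ih hP

private lemma local_eval_smul {K W : Type*} [Field K] {P : MvPolynomial W K} {n : ℕ}
    (hP : P.IsHomogeneous n) (κ : K) (u : W → K) :
    eval (fun w => κ * u w) P = κ ^ n * eval u P := by
  rw [eval_eq, eval_eq, Finset.mul_sum]
  refine Finset.sum_congr rfl fun d hd => ?_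
  have h1 : ∏ i ∈ d.support, κ ^ d i = κ ^ n := by
    rw [Finset.prod_pow_eq_pow_sum, ← Finsupp.degree_apply]
    congr 1
    have := hP (mem_support_iff.1 hd)
    rw [← this, Finsupp.degree_eq_weight_one]
    rfl
  simp_rw [mul_pow]
  rw [Finset.prod_mul_distrib, h1]
  ring

private lemma local_homog {K W : Type*} [Field K] (P : MvPolynomial W K) (l : ℕ)
    (hP : P.totalDegree ≤ l) (ws : W) :
    ∃ Q : MvPolynomial W K, Q.IsHomogeneous l ∧ ∀ (κ : K) (u : W → K), u ws = 1 →
      eval (fun w => κ * u w) Q = κ ^ l * eval u P := by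
  refine ⟨∑ i ∈ Finset.range (l + 1), homogeneousComponent i P * X ws ^ (l - i), ?_, ?_⟩
  · refine IsHomogeneous.sum _ _ _ fun i hi => ?_
    have hi' : i ≤ l := Nat.lt_succ_iff.1 (Finset.mem_range.1 hi)
    have h1 := (homogeneousComponent_isHomogeneous i P).mul ((isHomogeneous_X K ws).pow (l - i))
    rwa [one_mul, Nat.add_sub_cancel' hi'] at h1
  · intro κ u hu
    have hsum : ∑ i ∈ Finset.range (l + 1), homogeneousComponent i P = P := by
      conv_rhs => rw [← sum_homogeneousComponent P]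
      symm
      refine Finset.sum_subset (Finset.range_subset_range.2 (by omega)) fun i _ hi => ?_
      exact homogeneousComponent_eq_zero _ _ (by
        rw [Finset.mem_range] at hi; omega)
    conv_rhs => rw [← hsum]
    rw [map_sum, map_sum, Finset.mul_sum]
    refine Finset.sum_congr rfl fun i hi => ?_
    have hi' : i ≤ l := Nat.lt_succ_iff.1 (Finset.mem_range.1 hi)
    rw [map_mul, map_pow, eval_X, hu, mul_one,
      local_eval_smul (homogeneousComponent_isHomogeneous i P), mul_right_comm, ← pow_add,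
      Nat.add_sub_cancel' hi']

private lemma local_finrank {K : Type*} [Field K] {Ω W : Type*} [Fintype W] (a : Ω → W → K)
    (l s : ℕ) (x : Fin s → Ω) (ws : W) (hne : ∀ j, a (x j) ws ≠ 0) :
    Module.finrank K (Submodule.span K {φ : Fin s → K | ∃ P : MvPolynomial W K,
      P.totalDegree < l + 1 ∧ φ = fun j => eval (fun w => a (x j) w / a (x j) ws) P}) ≤
        hil a l := by
  classical
  let T : (Ω → K) →ₗ[K] (Fin s → K) :=
    { toFun := fun φ j => (a (x j) ws)⁻¹ ^ l * φ (x j)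
      map_add' := fun φ ψ => by ext j; simp [mul_add]
      map_smul' := fun c φ => by ext j; simp [mul_left_comm] }
  have hfin : Module.Finite K (formsOn a l) := by
    rw [Module.Finite.iff_fg, formsOn]
    exact (homogeneousSubmodule_fg (σ := W) (R := K) l).map _
  have hle : Submodule.span K {φ : Fin s → K | ∃ P : MvPolynomial W K,
      P.totalDegree < l + 1 ∧ φ = fun j => eval (fun w => a (x j) w / a (x j) ws) P} ≤
        (formsOn a l).map T := by
    rw [Submodule.span_le]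
    rintro φ ⟨P, hP, rfl⟩
    obtain ⟨Q, hQ, hQe⟩ := local_homog P l (by omega) ws
    refine ⟨fun y => eval (a y) Q, ⟨Q, hQ, ?_⟩, ?_⟩
    · ext y; simp [aeval_def, eval, eval₂]
    · ext j
      have h1 := hQe (a (x j) ws) (fun w => a (x j) w / a (x j) ws) (div_self (hne j))
      have h2 : (fun w => a (x j) ws * (a (x j) w / a (x j) ws)) = a (x j) := by
        ext w; rw [mul_div_cancel₀ _ (hne j)]
      rw [h2] at h1
      show (a (x j) ws)⁻¹ ^ l * eval (a (x j)) Q = _
      rw [h1, ← mul_assoc, ← mul_pow, inv_mul_cancel₀ (hne j), one_pow, one_mul]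
  calc _ ≤ Module.finrank K ((formsOn a l).map T) := Submodule.finrank_mono hle
    _ ≤ hil a l := Submodule.finrank_map_le _ _

theorem localbound {K : Type*} [Field K] {Ω W : Type*} [Fintype W]
    (v : AbsoluteValue K ℝ) (hv : IsNonarchimedean v) (ρ : ℝ) (hρ0 : 0 < ρ)
    (hρ1 : ρ ≤ 1) (a : Ω → W → K) (y : Ω → W → K) (e : ℕ) (Y : W → MvPolynomial W K)
    (hYh : ∀ w, (Y w).IsHomogeneous e) (hYi : ∀ w, IntPoly v (Y w)) (s : ℕ) (x : Fin s → Ω)
    (hY : ∀ j, ∃ c : K, ∀ w, eval (a (x j)) (Y w) = c * y (x j) w)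
    (ws : W) (hne : ∀ j, a (x j) ws ≠ 0) (hmax : ∀ j w, v (a (x j) w) ≤ v (a (x j) ws))
    (hgood : ∀ j, (⨆ w, v (eval (a (x j)) (Y w))) = (⨆ w, v (a (x j) w)) ^ e)
    (hclose : ∀ i j w, v (a (x i) w / a (x i) ws - a (x j) w / a (x j) ws) ≤ ρ)
    (b₁ b : ℕ) (M : Fin s → MvPolynomial W K) (hMh : ∀ k, (M k).IsHomogeneous b₁)
    (hMi : ∀ k, IntPoly v (M k)) (i : Fin s → ℕ) (hi : ∀ k, i k ≤ b) (w₀ w₁ : W) (L : ℕ)
    (hL : 1 ≤ L) :
    v (Matrix.det (Matrix.of fun k j =>
      eval (a (x j)) (M k) * y (x j) w₀ ^ (b - i k) * y (x j) w₁ ^ i k)) ≤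
      ρ ^ (L * (s - hil a (L - 1))) *
        ∏ j, ((⨆ w, v (a (x j) w)) ^ b₁ * (⨆ w, v (y (x j) w)) ^ b) := by
  classical
  have : Nonempty W := ⟨ws⟩
  choose c hc using hY
  obtain ⟨l, rfl⟩ : ∃ l, L = l + 1 := ⟨L - 1, by omega⟩
  set κ : Fin s → K := fun j => a (x j) ws with hκ
  set u : Fin s → W → K := fun j w => a (x j) w / κ j with hu
  have hau : ∀ j, (fun w => κ j * u j w) = a (x j) := fun j => by
    ext w; exact mul_div_cancel₀ _ (hne j)
  have hvκ : ∀ j, 0 < v (κ j) := fun j => v.pos (hne j)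
  have hsupa : ∀ j, (⨆ w, v (a (x j) w)) = v (κ j) := fun j =>
    le_antisymm (ciSup_le fun w => hmax j w) (Finite.le_ciSup_of_le ws le_rfl)
  -- the constants are not zero
  have hcv : ∀ j, v (c j) * (⨆ w, v (y (x j) w)) = v (κ j) ^ e := fun j => by
    rw [← hsupa, ← hgood j, Real.mul_iSup_of_nonneg (v.nonneg _)]
    simp_rw [hc j, map_mul]
  have hc0 : ∀ j, c j ≠ 0 := fun j h => by
    have := hcv j
    rw [h, map_zero, zero_mul] at this
    exact (pow_pos (hvκ j) e).ne this
  set μ : Fin s → K := fun j => (c j)⁻¹ * κ j ^ e with hμ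
  have hyμ : ∀ j w, y (x j) w = μ j * eval (u j) (Y w) := fun j w => by
    have h1 := hc j w
    rw [← hau j, local_eval_smul (hYh w)] at h1
    rw [hμ]
    show _ = (c j)⁻¹ * κ j ^ e * eval (u j) (Y w)
    rw [mul_assoc, h1, ← mul_assoc, inv_mul_cancel₀ (hc0 j), one_mul]
  have hvμ : ∀ j, v (μ j) = ⨆ w, v (y (x j) w) := fun j => by
    have h1 := hcv j
    have h2 : v (c j) ≠ 0 := (v.pos (hc0 j)).ne'
    rw [hμ]
    show v ((c j)⁻¹ * κ j ^ e) = _
    rw [map_mul, map_inv₀, map_pow, ← h1, ← mul_assoc, inv_mul_cancel₀ h2, one_mul]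
  set g : Fin s → MvPolynomial W K := fun k => M k * Y w₀ ^ (b - i k) * Y w₁ ^ i k with hg
  have hgi : ∀ k, IntPoly v (g k) := fun k =>
    local_int_mul v hv (local_int_mul v hv (hMi k) (local_int_pow v hv (hYi w₀) _))
      (local_int_pow v hv (hYi w₁) _)
  have hmat : (Matrix.of fun k j =>
      eval (a (x j)) (M k) * y (x j) w₀ ^ (b - i k) * y (x j) w₁ ^ i k) =
      (Matrix.of fun k j => (κ j ^ b₁ * μ j ^ b) * (Matrix.of fun k j => eval (u j) (g k)) k j) := by
    ext k j
    show eval (a (x j)) (M k) * y (x j) w₀ ^ (b - i k) * y (x j) w₁ ^ i k =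
      (κ j ^ b₁ * μ j ^ b) * eval (u j) (g k)
    rw [hyμ j w₀, hyμ j w₁, ← hau j, local_eval_smul (hMh k), hg]
    show _ = (κ j ^ b₁ * μ j ^ b) * eval (u j) (M k * Y w₀ ^ (b - i k) * Y w₁ ^ i k)
    rw [map_mul, map_mul, map_pow, map_pow]
    have : μ j ^ b = μ j ^ (b - i k) * μ j ^ i k := by
      rw [← pow_add, Nat.sub_add_cancel (hi k)]
    rw [this]
    ring
  have hfin : Module.finrank K (Submodule.span K {φ : Fin s → K | ∃ P : MvPolynomial W K,
      P.totalDegree < l + 1 ∧ φ = fun j => eval (u j) P}) ≤ hil a l :=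
    local_finrank a l s x ws hne
  have hu1 : ∀ j w, v (u j w) ≤ 1 := fun j w => by
    rw [hu]
    show v (a (x j) w / κ j) ≤ 1
    rw [map_div₀, div_le_one (hvκ j)]
    exact hmax j w
  have key := locdet v hv ρ hρ0 hρ1 (l + 1) (hil a l) s u hu1 hclose g hgi hfin
  rw [hmat, Matrix.det_mul_row, map_mul, map_prod, mul_comm, Nat.add_sub_cancel]
  have hprod : ∏ j, v (κ j ^ b₁ * μ j ^ b) =
      ∏ j, ((⨆ w, v (a (x j) w)) ^ b₁ * (⨆ w, v (y (x j) w)) ^ b) :=
    Finset.prod_congr rfl fun j _ => by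
      rw [map_mul, map_pow, map_pow, hsupa, hvμ]
  rw [hprod]
  refine mul_le_mul_of_nonneg_right key ?_
  rw [← hprod]
  exact Finset.prod_nonneg fun j _ => v.nonneg _

end Pool.Agent.Helper63.SAND
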