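import Pool.Agent.Helper63.SAND.Defs

/-!
Module TAY: Taylor expansion of an integral polynomial at a point of the unit ball.
-/

set_option autoImplicit false

open MvPolynomial

namespace Pool.Agent.Helper63.SAND

variable {K : Type*} [Field K]

theorem tay_sum (v : AbsoluteValue K ℝ) (hv : IsNonarchimedean v) {ι : Type*} (s : Finset ι)
    (f : ι → K) (hf : ∀ i ∈ s, v (f i) ≤ 1) : v (∑ i ∈ s, f i) ≤ 1 := by
  classical
  induction s using Finset.induction_on with
  | empty => simp
  | insert i s hi ih =>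
    rw [Finset.sum_insert hi]
    exact (hv _ _).trans (max_le (hf i (Finset.mem_insert_self i s))
      (ih fun j hj => hf j (Finset.mem_insert_of_mem hj)))

theorem tay_C (v : AbsoluteValue K ℝ) {σ : Type*} {a : K} (ha : v a ≤ 1) :
    IntPoly v (C a : MvPolynomial σ K) := by
  classical
  intro d
  rw [coeff_C]
  split_ifs
  · exact ha
  · simp

theorem tay_X (v : AbsoluteValue K ℝ) {σ : Type*} (w : σ) :
    IntPoly v (X w : MvPolynomial σ K) := by
  classical
  intro d
  rw [coeff_X]
  split_ifs <;> simp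

theorem tay_add (v : AbsoluteValue K ℝ) (hv : IsNonarchimedean v) {σ : Type*}
    {P Q : MvPolynomial σ K} (hP : IntPoly v P) (hQ : IntPoly v Q) : IntPoly v (P + Q) := by
  intro d
  rw [coeff_add]
  exact (hv _ _).trans (max_le (hP d) (hQ d))

theorem tay_mul (v : AbsoluteValue K ℝ) (hv : IsNonarchimedean v) {σ : Type*}
    {P Q : MvPolynomial σ K} (hP : IntPoly v P) (hQ : IntPoly v Q) : IntPoly v (P * Q) := by
  classical
  intro d
  rw [coeff_mul]
  refine tay_sum v hv _ _ fun x _ => ?_
  rw [map_mul]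
  exact mul_le_one₀ (hP _) (apply_nonneg v _) (hQ _)

theorem tay_pow (v : AbsoluteValue K ℝ) (hv : IsNonarchimedean v) {σ : Type*}
    {P : MvPolynomial σ K} (hP : IntPoly v P) (n : ℕ) : IntPoly v (P ^ n) := by
  induction n with
  | zero =>
    rw [pow_zero, ← C_1]
    exact tay_C v (by simp)
  | succ n ih =>
    rw [pow_succ]
    exact tay_mul v hv ih hP

theorem tay_prod (v : AbsoluteValue K ℝ) (hv : IsNonarchimedean v) {σ ι : Type*} (s : Finset ι)
    (f : ι → MvPolynomial σ K) (hf : ∀ i ∈ s, IntPoly v (f i)) : IntPoly v (∏ i ∈ s, f i) := by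
  classical
  induction s using Finset.induction_on with
  | empty =>
    rw [Finset.prod_empty, ← C_1]
    exact tay_C v (by simp)
  | insert i s hi ih =>
    rw [Finset.prod_insert hi]
    exact tay_mul v hv (hf i (Finset.mem_insert_self i s))
      (ih fun j hj => hf j (Finset.mem_insert_of_mem hj))

theorem tay (v : AbsoluteValue K ℝ) (hv : IsNonarchimedean v) {W : Type*} [Fintype W]
    (u₀ : W → K) (hu₀ : ∀ w, v (u₀ w) ≤ 1) (P : MvPolynomial W K) (hP : IntPoly v P) :
    ∃ c : (W →₀ ℕ) →₀ K, (∀ β, v (c β) ≤ 1) ∧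
      ∀ u : W → K, eval u P = ∑ β ∈ c.support, c β * ∏ w, (u w - u₀ w) ^ β w := by
  classical
  set Q : MvPolynomial W K := bind₁ (fun w => X w + C (u₀ w)) P with hQ
  have hint : IntPoly v Q := by
    have h1 : Q = ∑ d ∈ P.support, C (coeff d P) *
        ∏ i ∈ d.support, (X i + C (u₀ i) : MvPolynomial W K) ^ d i := by
      rw [hQ, bind₁, aeval_def, eval₂_eq]
      rfl
    intro β
    rw [h1, coeff_sum]
    refine tay_sum v hv _ _ fun d _ => ?_
    exact tay_mul v hv (tay_C v (hP d)) (tay_prod v hv _ _ fun i _ =>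
      tay_pow v hv (tay_add v hv (tay_X v i) (tay_C v (hu₀ i))) _) β
  have heval : ∀ u : W → K, eval u P = eval (fun w => u w - u₀ w) Q := by
    intro u
    have h2 : eval (fun w => u w - u₀ w) Q =
        eval (fun i => eval (fun w => u w - u₀ w) (X i + C (u₀ i) : MvPolynomial W K)) P :=
      eval₂Hom_bind₁ (RingHom.id K) _ _ _
    have h3 : (fun i => eval (fun w => u w - u₀ w) (X i + C (u₀ i) : MvPolynomial W K)) = u := by
      funext i
      simp
    rw [h2, h3]
  refine ⟨Finsupp.onFinset Q.support (fun β => coeff β Q) (fun β hβ => by simpa using hβ), ?_, ?_⟩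
  · intro β
    exact hint β
  · intro u
    rw [heval u, eval_eq']
    refine (Finset.sum_subset ?_ ?_).symm
    · intro β hβ
      simpa using hβ
    · intro β _ hβ
      simp only [Finsupp.mem_support_iff, Finsupp.onFinset_apply, ne_eq, not_not] at hβ
      rw [hβ, zero_mul]

end Pool.Agent.Helper63.SAND
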