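import Pool.Agent.Helper63.SAND.Cram
import Pool.Agent.Helper63.SAND.Detx
import Pool.Agent.Helper63.SAND.Tay

/-!
The p-adic determinant estimate.
-/

open MvPolynomial

namespace Pool.Agent.Helper63.SAND

variable {K : Type*} [Field K]

theorem locdet_sum (v : AbsoluteValue K ℝ) (hv : IsNonarchimedean v) {I : Type*} (s : Finset I)
    (f : I → K) (r : ℝ) (hr : 0 ≤ r) (h : ∀ i ∈ s, v (f i) ≤ r) : v (∑ i ∈ s, f i) ≤ r := by
  classical
  induction s using Finset.induction_on with
  | empty => simpa using hr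
  | insert a s ha ih =>
    rw [Finset.sum_insert ha]
    refine (hv _ _).trans (max_le (h a (Finset.mem_insert_self a s)) (ih fun i hi => ?_))
    exact h i (Finset.mem_insert_of_mem hi)

theorem locdet_prod (v : AbsoluteValue K ℝ) {W : Type*} [Fintype W] (ρ : ℝ)
    (x : W → K) (hx : ∀ w, v (x w) ≤ ρ) (β : W →₀ ℕ) :
    v (∏ w, x w ^ β w) ≤ ρ ^ β.degree := by
  rw [map_prod, Finsupp.degree_eq_sum, ← Finset.prod_pow_eq_pow_sum]
  refine Finset.prod_le_prod (fun w _ => v.nonneg _) fun w _ => ?_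
  rw [map_pow]
  exact pow_le_pow_left₀ (v.nonneg _) (hx w) _

theorem locdet (v : AbsoluteValue K ℝ) (hv : IsNonarchimedean v) {W : Type*} [Fintype W]
    (ρ : ℝ) (hρ0 : 0 < ρ) (hρ1 : ρ ≤ 1) (L q s : ℕ) (u : Fin s → W → K)
    (hu : ∀ j w, v (u j w) ≤ 1) (huu : ∀ i j w, v (u i w - u j w) ≤ ρ)
    (g : Fin s → MvPolynomial W K) (hg : ∀ k, IntPoly v (g k))
    (hq : Module.finrank K (Submodule.span K {φ : Fin s → K | ∃ P : MvPolynomial W K,
      P.totalDegree < L ∧ φ = fun j => eval (u j) P}) ≤ q) :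
    v (Matrix.det (Matrix.of fun k j => eval (u j) (g k))) ≤ ρ ^ (L * (s - q)) := by
  classical
  rcases Nat.eq_zero_or_pos s with hs | hs
  · subst hs
    rw [Matrix.det_isEmpty, map_one]
    simp
  set u₀ : W → K := u ⟨0, hs⟩ with hu₀
  choose c hc hce using fun k => tay v hv u₀ (hu _) (g k) (hg k)
  set S : Finset (W →₀ ℕ) := (Finset.univ.biUnion fun k => (c k).support).filter
    (fun β => β.degree < L) with hS
  set n := S.card
  set e : Fin n ≃ S := (S.equivFin).symm with he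
  set F : Fin n → (Fin s → K) := fun i j => ∏ w, (u j w - u₀ w) ^ (e i : W →₀ ℕ) w with hF
  have hrank : Module.finrank K (Submodule.span K (Set.range F)) ≤ q := by
    refine le_trans (Submodule.finrank_mono (Submodule.span_mono ?_)) hq
    rintro _ ⟨i, rfl⟩
    refine ⟨∏ w, (X w - C (u₀ w)) ^ (e i : W →₀ ℕ) w, ?_, ?_⟩
    · refine lt_of_le_of_lt (totalDegree_finsetProd _ _) ?_
      have h1 : ((e i : W →₀ ℕ)).degree < L := (Finset.mem_filter.1 (e i).2).2
      refine lt_of_le_of_lt ?_ h1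
      rw [Finsupp.degree_eq_sum]
      refine Finset.sum_le_sum fun w _ => ?_
      refine (totalDegree_pow _ _).trans ?_
      have h2 : (X w - C (u₀ w) : MvPolynomial W K).totalDegree ≤ 1 := by
        refine (totalDegree_sub _ _).trans ?_
        simp
      calc _ ≤ (e i : W →₀ ℕ) w * 1 := Nat.mul_le_mul_left _ h2
        _ = _ := Nat.mul_one _
    · funext j
      simp [hF, map_prod]
  obtain ⟨g', hg', hc'⟩ := cram v s q n F hrank
  choose c' hc'1 hc'2 using hc'
  have hd : ∀ j w, v (u j w - u₀ w) ≤ ρ := fun j w => huu _ _ _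
  have hF1 : ∀ i j, v (F i j) ≤ 1 := fun i j =>
    (locdet_prod v ρ _ (hd j) _).trans (pow_le_one₀ hρ0.le hρ1)
  rw [pow_mul]
  refine detx v hv s q (Matrix.of fun k j => eval (u j) (g k))
    (Matrix.of fun k j => ∑ β ∈ (c k).support.filter (fun β => ¬ β.degree < L),
      c k β * ∏ w, (u j w - u₀ w) ^ β w)
    (Matrix.of fun k l => ∑ i, c k (e i) * c' i l) (Matrix.of fun l j => g' l j) (ρ ^ L)
    (pow_nonneg hρ0.le _) (pow_le_one₀ hρ0.le hρ1) ?_ ?_ ?_ ?_
  · intro k l
    rw [Matrix.of_apply]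
    refine locdet_sum v hv _ _ _ zero_le_one fun i _ => ?_
    rw [map_mul]
    exact mul_le_one₀ (hc _ _) (v.nonneg _) (hc'1 _ _)
  · intro l j
    rcases hg' l with h | ⟨i, h⟩
    · simp [h]
    · simp only [Matrix.of_apply, h]
      exact hF1 i j
  · intro k j
    rw [Matrix.of_apply]
    refine locdet_sum v hv _ _ _ (pow_nonneg hρ0.le _) fun β hβ => ?_
    have h1 : L ≤ β.degree := not_lt.1 (Finset.mem_filter.1 hβ).2
    rw [map_mul]
    calc v (c k β) * v (∏ w, (u j w - u₀ w) ^ β w) ≤ 1 * ρ ^ β.degree :=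
          mul_le_mul (hc _ _) (locdet_prod v ρ _ (hd j) _) (v.nonneg _) zero_le_one
      _ ≤ ρ ^ L := by
          rw [one_mul]
          exact pow_le_pow_of_le_one hρ0.le hρ1 h1
  · ext k j
    simp only [Matrix.of_apply, Matrix.add_apply, Matrix.mul_apply]
    rw [hce k (u j), ← Finset.sum_filter_add_sum_filter_not (c k).support (fun β => β.degree < L)]
    congr 1
    have h1 : ∑ β ∈ (c k).support.filter (fun β => β.degree < L),
        c k β * ∏ w, (u j w - u₀ w) ^ β w = ∑ β ∈ S, c k β * ∏ w, (u j w - u₀ w) ^ β w := by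
      refine Finset.sum_subset ?_ ?_
      · intro β hβ
        rw [Finset.mem_filter] at hβ
        exact Finset.mem_filter.2 ⟨Finset.mem_biUnion.2 ⟨k, Finset.mem_univ _, hβ.1⟩, hβ.2⟩
      · intro β hβ hβ'
        have h2 : β ∉ (c k).support := fun h =>
          hβ' (Finset.mem_filter.2 ⟨h, (Finset.mem_filter.1 hβ).2⟩)
        rw [Finsupp.notMem_support_iff.1 h2, zero_mul]
    have h2 : ∑ β ∈ S, c k β * ∏ w, (u j w - u₀ w) ^ β w = ∑ i, c k (e i) * F i j := by
      rw [← Finset.sum_coe_sort S, ← e.sum_comp]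
    rw [h1, h2]
    have h3 : ∀ i, F i j = ∑ l, c' i l * g' l j := by
      intro i
      rw [hc'2 i]
      simp
    simp_rw [h3, Finset.mul_sum, Finset.sum_mul, mul_assoc]
    rw [Finset.sum_comm]

end Pool.Agent.Helper63.SAND
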