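import Pool.Agent.Helper63.SAND.Defs

open MvPolynomial Filter Topology

namespace Pool.Agent.Helper63.SAND

theorem param (r ρ : ℝ) (hr : 1 ≤ r) (hρ : r < ρ) (m c₀ n₀ E : ℕ) (hE : r ≤ E) :
    ∃ C : ℕ, ∀ b : ℕ, 1 ≤ b → ∃ n ≥ n₀, ((m * (⌈(b : ℝ) * r ^ n⌉₊ + c₀) : ℕ) : ℝ) < ρ ^ n ∧
      E ^ n ≤ (b + 1) ^ C := by
  have hr0 : 0 < r := by linarith
  have hq : 1 < ρ / r := (one_lt_div hr0).2 hρ
  obtain ⟨K₀, hK₀⟩ := pow_unbounded_of_one_lt (2 : ℝ) hq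
  have hE1 : 1 ≤ E := by
    have : (1 : ℝ) ≤ E := hr.trans hE
    exact_mod_cast this
  set D : ℕ := m * (1 + c₀) + m + 1 with hD
  refine ⟨E * (n₀ + K₀ * D + K₀) + E * K₀, fun b hb => ?_⟩
  set L : ℕ := Nat.log 2 (b + 1) + 1 with hL
  refine ⟨n₀ + K₀ * (D + L), Nat.le_add_right _ _, ?_, ?_⟩
  · set n := n₀ + K₀ * (D + L) with hn
    have hrn : 1 ≤ r ^ n := one_le_pow₀ hr
    have h1 : ((⌈(b : ℝ) * r ^ n⌉₊ : ℕ) : ℝ) ≤ b * r ^ n + 1 :=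
      (Nat.ceil_lt_add_one (by positivity)).le
    have h2 : ((m * (⌈(b : ℝ) * r ^ n⌉₊ + c₀) : ℕ) : ℝ) ≤ (m * (b + 1 + c₀) : ℝ) * r ^ n := by
      push_cast
      have h3 : ((⌈(b : ℝ) * r ^ n⌉₊ : ℕ) : ℝ) + c₀ ≤ (b + 1 + c₀) * r ^ n := by
        have hc : (0 : ℝ) ≤ c₀ := Nat.cast_nonneg _
        nlinarith
      calc (m : ℝ) * (((⌈(b : ℝ) * r ^ n⌉₊ : ℕ) : ℝ) + c₀) ≤ m * ((b + 1 + c₀) * r ^ n) :=
            mul_le_mul_of_nonneg_left h3 (Nat.cast_nonneg _)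
        _ = _ := by ring
    have h4 : (m * (b + 1 + c₀) : ℝ) < (ρ / r) ^ n := by
      have h5 : m * (b + 1 + c₀) < 2 ^ (D + L) := by
        have h6 : b + 1 < 2 ^ L := Nat.lt_pow_succ_log_self (by norm_num) _
        have h7 : D < 2 ^ D := Nat.lt_two_pow_self
        have h8 : m * (b + 1 + c₀) ≤ D * (b + 1) := by
          rw [hD]
          nlinarith [Nat.zero_le (m * c₀ * b), Nat.zero_le (m * b), Nat.zero_le (m * c₀)]
        calc m * (b + 1 + c₀) ≤ D * (b + 1) := h8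
          _ < 2 ^ D * 2 ^ L := by
            apply Nat.mul_lt_mul'' h7 h6
          _ = 2 ^ (D + L) := (pow_add _ _ _).symm
      calc (m * (b + 1 + c₀) : ℝ) = ((m * (b + 1 + c₀) : ℕ) : ℝ) := by push_cast; ring
        _ < ((2 ^ (D + L) : ℕ) : ℝ) := by exact_mod_cast h5
        _ = (2 : ℝ) ^ (D + L) := by push_cast; ring
        _ ≤ ((ρ / r) ^ K₀) ^ (D + L) := pow_le_pow_left₀ (by norm_num) hK₀.le _
        _ = (ρ / r) ^ (K₀ * (D + L)) := (pow_mul _ _ _).symm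
        _ ≤ (ρ / r) ^ n := pow_le_pow_right₀ hq.le (Nat.le_add_left _ _)
    calc _ ≤ (m * (b + 1 + c₀) : ℝ) * r ^ n := h2
      _ < (ρ / r) ^ n * r ^ n := mul_lt_mul_of_pos_right h4 (by positivity)
      _ = ρ ^ n := by rw [← mul_pow, div_mul_cancel₀ _ hr0.ne']
  · have hE2 : E ≤ 2 ^ E := Nat.lt_two_pow_self.le
    have hlog : 2 ^ Nat.log 2 (b + 1) ≤ b + 1 := Nat.pow_log_le_self 2 (by omega)
    have h2b : 2 ≤ b + 1 := by omega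
    calc E ^ (n₀ + K₀ * (D + L)) ≤ (2 ^ E) ^ (n₀ + K₀ * (D + L)) := Nat.pow_le_pow_left hE2 _
      _ = 2 ^ (E * (n₀ + K₀ * D + K₀)) * (2 ^ Nat.log 2 (b + 1)) ^ (E * K₀) := by
        rw [← pow_mul, ← pow_mul, ← pow_add, hL]
        congr 1
        ring
      _ ≤ (b + 1) ^ (E * (n₀ + K₀ * D + K₀)) * (b + 1) ^ (E * K₀) :=
        Nat.mul_le_mul (Nat.pow_le_pow_left h2b _) (Nat.pow_le_pow_left hlog _)
      _ = _ := (pow_add _ _ _).symm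

end Pool.Agent.Helper63.SAND
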