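import Pool.Agent.Helper63.SAND.Defs

/-!
Module PLACE: a finite place of a number field above a rational prime.
-/

open MvPolynomial Filter Topology
open scoped LinearAlgebra.Projectivization

namespace Pool.Agent.Helper63.SAND

open Pool.Agent.Helper90.KSC
open IsDedekindDomain NumberField

/-- A prime of the ring of integers above `p`, with norm a power of `p`. -/
theorem place_prime (K : Type*) [Field K] [NumberField K] (p : ℕ) (hp : p.Prime) :
    ∃ v : HeightOneSpectrum (𝓞 K), (p : 𝓞 K) ∈ v.asIdeal ∧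
      ∃ f : ℕ, 1 ≤ f ∧ f ≤ Module.finrank ℚ K ∧ Ideal.absNorm v.asIdeal = p ^ f := by
  have hN : Ideal.absNorm (Ideal.span {(p : 𝓞 K)}) = p ^ Module.finrank ℚ K := by
    rw [Ideal.absNorm_span_natCast, RingOfIntegers.rank]
  have hne : Ideal.span {(p : 𝓞 K)} ≠ ⊤ := by
    intro h
    rw [h, Ideal.absNorm_top] at hN
    have h1 : 1 < p ^ Module.finrank ℚ K :=
      Nat.one_lt_pow Module.finrank_pos.ne' hp.one_lt
    omega
  obtain ⟨M, hM, hle⟩ := Ideal.exists_le_maximal _ hne
  have hpM : (p : 𝓞 K) ∈ M := hle (Ideal.mem_span_singleton_self _)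
  have hbot : M ≠ ⊥ := by
    rintro rfl
    rw [Ideal.mem_bot] at hpM
    exact hp.ne_zero (by exact_mod_cast hpM)
  refine ⟨⟨M, hM.isPrime, hbot⟩, hpM, ?_⟩
  have hdvd : Ideal.absNorm M ∣ p ^ Module.finrank ℚ K := by
    rw [← hN]
    exact Ideal.absNorm_dvd_absNorm_of_le hle
  obtain ⟨f, hf, hfN⟩ := (Nat.dvd_prime_pow hp).1 hdvd
  refine ⟨f, ?_, hf, hfN⟩
  have h1 := HeightOneSpectrum.one_lt_absNorm (⟨M, hM.isPrime, hbot⟩ : HeightOneSpectrum (𝓞 K))
  rcases Nat.eq_zero_or_pos f with h0 | h0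
  · subst h0
    simp only [pow_zero] at hfN
    change 1 < Ideal.absNorm M at h1
    omega
  · exact h0

open Height Height.AdmissibleAbsValues in
theorem place (K : Type*) [Field K] [NumberField K] (p : ℕ) (hp : p.Prime) :
    ∃ v ∈ nonarchAbsVal (K := K), v (p : K) < 1 ∧ (∀ z, v z < 1 → v z ≤ 1 / p) ∧
      ∃ red : K → Fin (p ^ Module.finrank ℚ K), ∀ x y, v x ≤ 1 → v y ≤ 1 → red x = red y →
        v (x - y) < 1 := by
  classical
  obtain ⟨v, hpv, f, hf1, hf, hNf⟩ := place_prime K p hp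
  have hN1 : 1 < Ideal.absNorm v.asIdeal := HeightOneSpectrum.one_lt_absNorm v
  have hw : ∀ z : K, NumberField.place (FinitePlace.embedding v) z =
      HeightOneSpectrum.adicAbv K v z := fun z => by
    rw [NumberField.place_apply, FinitePlace.norm_embedding]
  have hval : ∀ z : K, HeightOneSpectrum.adicAbv K v z =
      ((WithZeroMulInt.toNNReal (HeightOneSpectrum.absNorm_ne_zero v) (v.valuation K z) : NNReal)
        : ℝ) := fun z => rfl
  have hle1 : ∀ z : K, HeightOneSpectrum.adicAbv K v z ≤ 1 ↔ v.valuation K z ≤ 1 := fun z => by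
    rw [hval, ← WithZeroMulInt.toNNReal_le_one_iff (HeightOneSpectrum.one_lt_absNorm_nnreal v)]
    exact_mod_cast Iff.rfl
  have hlt1 : ∀ z : K, HeightOneSpectrum.adicAbv K v z < 1 ↔ v.valuation K z < 1 := fun z => by
    rw [hval, ← WithZeroMulInt.toNNReal_lt_one_iff (HeightOneSpectrum.one_lt_absNorm_nnreal v)]
    exact_mod_cast Iff.rfl
  refine ⟨NumberField.place (FinitePlace.embedding v), ⟨v, rfl⟩, ?_, ?_, ?_⟩
  · rw [hw]
    have h := (v.adicAbv_coe_lt_one_iff (K := K)
      (HeightOneSpectrum.one_lt_absNorm_nnreal v) (p : 𝓞 K)).2 hpv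
    rw [map_natCast] at h
    exact h
  · intro z hz
    rw [hw] at hz ⊢
    rw [hlt1] at hz
    have hp0 : (0 : ℝ) < p := by exact_mod_cast hp.pos
    rcases eq_or_ne z 0 with rfl | hz0
    · rw [map_zero]
      positivity
    · have hv0 : v.valuation K z ≠ 0 := (Valuation.ne_zero_iff _).2 hz0
      rw [hval, WithZeroMulInt.toNNReal_neg_apply _ hv0]
      have hneg : (WithZero.unzero hv0).toAdd ≤ -1 := by
        have h1 : WithZero.unzero hv0 < 1 := by
          rw [← WithZero.coe_lt_coe, WithZero.coe_unzero]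
          exact hz
        have h2 : (WithZero.unzero hv0).toAdd < 0 := by
          simpa using Multiplicative.toAdd_lt.2 h1
        omega
      push_cast
      have hN1' : (1 : ℝ) ≤ (Ideal.absNorm v.asIdeal : ℝ) := by exact_mod_cast hN1.le
      have hpN : (p : ℝ) ≤ (Ideal.absNorm v.asIdeal : ℝ) := by
        rw [hNf]
        push_cast
        calc (p : ℝ) = (p : ℝ) ^ 1 := (pow_one _).symm
          _ ≤ (p : ℝ) ^ f := pow_le_pow_right₀ (by exact_mod_cast hp.one_lt.le) hf1
      calc (Ideal.absNorm v.asIdeal : ℝ) ^ (WithZero.unzero hv0).toAdd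
          ≤ (Ideal.absNorm v.asIdeal : ℝ) ^ (-1 : ℤ) := zpow_le_zpow_right₀ hN1' hneg
        _ = 1 / (Ideal.absNorm v.asIdeal : ℝ) := by rw [zpow_neg_one, one_div]
        _ ≤ 1 / p := one_div_le_one_div_of_le hp0 hpN
  · have hfin : Finite (𝓞 K ⧸ v.asIdeal) :=
      v.asIdeal.finiteQuotientOfFreeOfNeBot v.ne_bot
    have hfint : Fintype (𝓞 K ⧸ v.asIdeal) := Fintype.ofFinite _
    have hcard : Fintype.card (𝓞 K ⧸ v.asIdeal) ≤ Fintype.card (Fin (p ^ Module.finrank ℚ K)) := by
      rw [Fintype.card_fin, ← Nat.card_eq_fintype_card]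
      have : Nat.card (𝓞 K ⧸ v.asIdeal) = p ^ f := hNf
      rw [this]
      exact Nat.pow_le_pow_right hp.pos hf
    obtain ⟨e⟩ := Function.Embedding.nonempty_of_card_le hcard
    have happ : ∀ x : K, ∃ a : 𝓞 K, v.valuation K x ≤ 1 →
        v.valuation K (algebraMap (𝓞 K) K a - x) < 1 := fun x => by
      by_cases hx : v.valuation K x ≤ 1
      · obtain ⟨a, ha⟩ := v.exists_valuation_sub_lt_of_integer hx 1
        exact ⟨a, fun _ => by simpa using ha⟩
      · exact ⟨0, fun h => absurd h hx⟩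
    choose A hA using happ
    refine ⟨fun x => e (Ideal.Quotient.mk v.asIdeal (A x)), fun x y hx hy hxy => ?_⟩
    rw [hw] at hx hy ⊢
    rw [hle1] at hx hy
    rw [hlt1]
    have hmem : A x - A y ∈ v.asIdeal := Ideal.Quotient.eq.1 (e.injective hxy)
    have h1 : v.valuation K (algebraMap (𝓞 K) K (A x - A y)) < 1 :=
      (v.valuation_lt_one_iff_mem (K := K) _).2 hmem
    have h2 : x - y = (algebraMap (𝓞 K) K (A x - A y) + (algebraMap (𝓞 K) K (A y) - y)) -
        (algebraMap (𝓞 K) K (A x) - x) := by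
      rw [map_sub]
      ring
    rw [h2]
    exact Valuation.map_sub_lt _ (Valuation.map_add_lt _ h1 (hA y hy)) (hA x hx)

end Pool.Agent.Helper63.SAND

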