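import Pool.Agent.Helper63.SAND.Place

/-!
Families of finite places.
-/

open MvPolynomial Filter Topology
open scoped LinearAlgebra.Projectivization

namespace Pool.Agent.Helper63.SAND

open Pool.Agent.Helper90.KSC

open Height Height.AdmissibleAbsValues in
theorem places (K : Type*) [Field K] [NumberField K] (S : Finset K) :
    ∃ (p₀ : ℕ) (v : ℕ → AbsoluteValue K ℝ), 2 ≤ p₀ ∧
      (∀ p q, p.Prime → q.Prime → v p = v q → p = q) ∧
      ∀ p, p.Prime → p₀ ≤ p → v p ∈ nonarchAbsVal (K := K) ∧ (∀ c ∈ S, v p c ≤ 1) ∧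
        (∀ z, v p z < 1 → v p z ≤ 1 / p) ∧
        ∃ red : K → Fin (p ^ Module.finrank ℚ K), ∀ x y, v p x ≤ 1 → v p y ≤ 1 →
          red x = red y → v p (x - y) < 1 := by
  classical
  have : Nonempty (AbsoluteValue K ℝ) := ⟨(place K 2 Nat.prime_two).choose⟩
  choose! v hv using fun (p : ℕ) (hp : p.Prime) => place K p hp
  have hna : ∀ p, p.Prime → IsNonarchimedean (v p) := fun p hp =>
    AdmissibleAbsValues.isNonarchimedean _ (hv p hp).1
  have hint : ∀ p, p.Prime → ∀ n : ℤ, v p (n : K) ≤ 1 := by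
    intro p hp n
    exact (hna p hp).apply_intCast_le_one
  have hinj : ∀ p q, p.Prime → q.Prime → v p = v q → p = q := by
    intro p q hp hq h
    by_contra hne
    have hc : Nat.Coprime p q := (Nat.coprime_primes hp hq).2 hne
    have h1 := (hv p hp).2.1
    have h2 : v p (q : K) < 1 := by rw [h]; exact (hv q hq).2.1
    obtain ⟨a, b, hab⟩ := (Nat.isCoprime_iff_coprime.2 hc : IsCoprime (p : ℤ) (q : ℤ))
    have h3 : (a : K) * (p : K) + (b : K) * (q : K) = 1 := by
      have := congrArg (Int.cast : ℤ → K) hab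
      push_cast at this
      exact this
    have h4 : v p (1 : K) ≤ max (v p ((a : K) * (p : K))) (v p ((b : K) * (q : K))) := by
      rw [← h3]; exact hna p hp _ _
    rw [map_one, map_mul, map_mul] at h4
    have h5 : v p (a : K) * v p (p : K) < 1 := by
      calc v p (a : K) * v p (p : K) ≤ 1 * v p (p : K) :=
            mul_le_mul_of_nonneg_right (hint p hp a) ((v p).nonneg _)
        _ < 1 := by rw [one_mul]; exact h1
    have h6 : v p (b : K) * v p (q : K) < 1 := by
      calc v p (b : K) * v p (q : K) ≤ 1 * v p (q : K) :=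
            mul_le_mul_of_nonneg_right (hint p hp b) ((v p).nonneg _)
        _ < 1 := by rw [one_mul]; exact h2
    exact absurd h4 (not_le.2 (max_lt h5 h6))
  -- finitely many bad primes for each element
  have hfin : ∀ c : K, {p : ℕ | p.Prime ∧ 1 < v p c}.Finite := by
    intro c
    rcases eq_or_ne c 0 with rfl | hc
    · convert Set.finite_empty
      ext p
      simp only [Set.mem_ofPred_eq, map_zero, Set.mem_empty_iff_false, iff_false, not_and, not_lt]
      intro _; exact zero_le_one
    · have hf := AdmissibleAbsValues.hasFiniteMulSupport (K := K) hc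
      have hf2 : (Function.mulSupport fun v : nonarchAbsVal (K := K) ↦ v.val c).Finite := hf
      have hf3 := hf2.image (Subtype.val)
      refine Set.Finite.of_finite_image (f := v) (hf3.subset ?_) ?_
      · rintro _ ⟨p, ⟨hp, hp2⟩, rfl⟩
        exact ⟨⟨v p, (hv p hp).1⟩, ne_of_gt hp2, rfl⟩
      · intro p hp q hq h
        exact hinj p q hp.1 hq.1 h
  have hfin2 : (⋃ c ∈ (S : Set K), {p : ℕ | p.Prime ∧ 1 < v p c}).Finite :=
    Set.Finite.biUnion (Finset.finite_toSet S) fun c _ => hfin c
  obtain ⟨M, hM⟩ := hfin2.bddAbove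
  refine ⟨M + 2, v, by omega, hinj, ?_⟩
  intro p hp hp0
  refine ⟨(hv p hp).1, ?_, (hv p hp).2.2.1, (hv p hp).2.2.2⟩
  intro c hc
  by_contra hlt
  have : p ∈ ⋃ c ∈ (S : Set K), {p : ℕ | p.Prime ∧ 1 < v p c} := by
    simp only [Set.mem_iUnion]
    exact ⟨c, hc, hp, not_le.1 hlt⟩
  have := hM this
  omega

end Pool.Agent.Helper63.SAND
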