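import Pool.Agent.Helper63.SAND.Defs

/-!
Many primes in `[p₀, C (A + p₀ + 1)^2]`.
-/

open MvPolynomial Filter Topology
open scoped LinearAlgebra.Projectivization

namespace Pool.Agent.Helper63.SAND

open Pool.Agent.Helper90.KSC

private theorem primes_aux_pi (M : ℕ) (hM : 1 ≤ M) :
    M ≤ Nat.primeCounting (100 * M ^ 2) := by
  have h := Chebyshev.pi_ge (100 * M ^ 2)
  have hMr : (1 : ℝ) ≤ M := by exact_mod_cast hM
  have hN : ((100 * M ^ 2 : ℕ) : ℝ) = (10 * M) ^ 2 := by push_cast; ring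
  rw [hN] at h
  have hlog : Real.log ((10 * (M : ℝ)) ^ 2) ≤ 2 * (10 * M) := by
    rw [Real.log_pow]
    have := Real.log_le_sub_one_of_pos (x := 10 * (M : ℝ)) (by positivity)
    push_cast
    linarith
  have hlogpos : 0 < Real.log ((10 * (M : ℝ)) ^ 2) := by
    apply Real.log_pos
    nlinarith
  have hlog2 : Real.log ((10 * (M : ℝ)) ^ 2 + 1) ≤ 1 + 2 * (10 * M) := by
    have h1 : Real.log ((10 * (M : ℝ)) ^ 2 + 1) ≤ Real.log (2 * (10 * (M : ℝ)) ^ 2) := by
      apply Real.log_le_log (by positivity)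
      nlinarith
    rw [Real.log_mul (by norm_num) (by positivity)] at h1
    have := Real.log_two_lt_d9
    linarith
  have hkey : (M : ℝ) ≤ (((10 * (M : ℝ)) ^ 2) * Real.log 2 - Real.log ((10 * (M : ℝ)) ^ 2 + 1)) /
      Real.log ((10 * (M : ℝ)) ^ 2) := by
    rw [le_div_iff₀ hlogpos]
    have h2 := Real.log_two_gt_d9
    have h3 : (M : ℝ) * Real.log ((10 * (M : ℝ)) ^ 2) ≤ M * (2 * (10 * M)) :=
      mul_le_mul_of_nonneg_left hlog (by positivity)
    nlinarith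
  exact_mod_cast hkey.trans h

theorem many_primes : ∃ C : ℕ, ∀ A p₀ : ℕ, ∃ P : Finset ℕ,
    (∀ p ∈ P, p.Prime ∧ p₀ ≤ p ∧ p ≤ C * (A + p₀ + 1) ^ 2) ∧ A ≤ P.card := by
  refine ⟨100, fun A p₀ => ⟨(Nat.primesLE (100 * (A + p₀ + 1) ^ 2)) \ Finset.range p₀, ?_, ?_⟩⟩
  · intro p hp
    rw [Finset.mem_sdiff, Nat.mem_primesLE, Finset.mem_range] at hp
    exact ⟨hp.1.2, by omega, hp.1.1⟩
  · have h1 := Finset.le_card_sdiff (Finset.range p₀) (Nat.primesLE (100 * (A + p₀ + 1) ^ 2))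
    rw [Finset.card_range, Nat.primesLE_card_eq_primeCounting] at h1
    have h2 := primes_aux_pi (A + p₀ + 1) (by omega)
    omega

end Pool.Agent.Helper63.SAND
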