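import Pool.Agent.Helper63.SAND.Defs

open MvPolynomial Filter Topology

namespace Pool.Agent.Helper63.SAND

variable {K : Type*} [Field K] {Ω W : Type*}

theorem relf {W' T : Type*} (a : Ω → W → K) (ha : PrimeH a) (y : Ω → W' → K)
    (e : ℕ) (Y : T → W' → MvPolynomial W K) (hY : LocF a y e Y) (b₁ b : ℕ) (w₀ w₁ : W')
    (P : ℕ → MvPolynomial W K) (hP : ∀ i, (P i).IsHomogeneous b₁)
    (hne : ∃ x, ∑ i ∈ Finset.range (b + 1),
      eval (a x) (P i) * y x w₀ ^ (b - i) * y x w₁ ^ i ≠ 0) :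
    ∃ Φ : MvPolynomial W K, Φ.IsHomogeneous (b₁ + b * e) ∧ ¬ Van a Φ ∧
      ∀ x, ∑ i ∈ Finset.range (b + 1), eval (a x) (P i) * y x w₀ ^ (b - i) * y x w₁ ^ i = 0 →
        eval (a x) Φ = 0 := by
  obtain ⟨hYh, hYc, hYn⟩ := hY
  set Φ : T → MvPolynomial W K := fun t =>
    ∑ i ∈ Finset.range (b + 1), P i * Y t w₀ ^ (b - i) * Y t w₁ ^ i with hΦ
  have hev : ∀ t x, ∃ c : K, (∀ w, eval (a x) (Y t w) = c * y x w) ∧ eval (a x) (Φ t) =
      c ^ b * ∑ i ∈ Finset.range (b + 1), eval (a x) (P i) * y x w₀ ^ (b - i) * y x w₁ ^ i := by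
    intro t x
    obtain ⟨c, hc⟩ := hYc t x
    refine ⟨c, hc, ?_⟩
    simp only [hΦ, map_sum, map_mul, map_pow, hc, Finset.mul_sum]
    refine Finset.sum_congr rfl fun i hi => ?_
    have hib : i ≤ b := Nat.lt_succ_iff.1 (Finset.mem_range.1 hi)
    have : c ^ b = c ^ (b - i) * c ^ i := by rw [← pow_add, Nat.sub_add_cancel hib]
    rw [mul_pow, mul_pow, this]; ring
  obtain ⟨x₀, hx₀⟩ := hne
  obtain ⟨t, w, htw⟩ := hYn x₀
  refine ⟨Φ t, ?_, ?_, ?_⟩
  · refine IsHomogeneous.sum _ _ _ fun i hi => ?_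
    have hib : i ≤ b := Nat.lt_succ_iff.1 (Finset.mem_range.1 hi)
    have h1 := ((hP i).mul ((hYh t w₀).pow (b - i))).mul ((hYh t w₁).pow i)
    have h2 : b₁ + e * (b - i) + e * i = b₁ + b * e := by
      rw [add_assoc, ← mul_add, Nat.sub_add_cancel hib, mul_comm]
    rw [h2] at h1
    exact h1
  · intro hv
    obtain ⟨c, hc, he⟩ := hev t x₀
    have h0 := hv x₀
    rw [he] at h0
    rcases mul_eq_zero.1 h0 with h | h
    · have hc0 : c = 0 := by
        by_contra hcc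
        exact pow_ne_zero b hcc h
      exact htw (by rw [hc w, hc0, zero_mul])
    · exact hx₀ h
  · intro x hx
    obtain ⟨c, -, he⟩ := hev t x
    rw [he, hx, mul_zero]

end Pool.Agent.Helper63.SAND
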