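import Pool.Agent.Helper63.SAND.Class
import Pool.Agent.Helper63.SAND.Hilb2

/-!
Tools for the assembly: polynomially bounded functions, products of forms, the Hilbert function is
positive.
-/

open MvPolynomial Filter Topology

namespace Pool.Agent.Helper63.SAND

/-- Polynomially bounded functions. -/
def PB (g : ℕ → ℝ) : Prop := ∃ k : ℕ, ∀ β : ℕ, |g β| ≤ ((β : ℝ) + 2) ^ k

theorem PB.base (β : ℕ) : (2 : ℝ) ≤ (β : ℝ) + 2 := by
  have : (0 : ℝ) ≤ β := Nat.cast_nonneg β
  linarith

theorem PB.base1 (β : ℕ) : (1 : ℝ) ≤ (β : ℝ) + 2 := by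
  have := PB.base β
  linarith

theorem PB.const (c : ℝ) : PB fun _ => c := by
  obtain ⟨k, hk⟩ := pow_unbounded_of_one_lt |c| (one_lt_two)
  exact ⟨k, fun β => hk.le.trans (pow_le_pow_left₀ (by norm_num) (PB.base β) k)⟩

theorem PB.id : PB fun β => (β : ℝ) := by
  refine ⟨1, fun β => ?_⟩
  rw [pow_one, abs_of_nonneg (Nat.cast_nonneg β)]
  linarith

theorem PB.mono {g h : ℕ → ℝ} (hh : PB h) (H : ∀ β, |g β| ≤ |h β|) : PB g := by
  obtain ⟨k, hk⟩ := hh
  exact ⟨k, fun β => (H β).trans (hk β)⟩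

theorem PB.add {g h : ℕ → ℝ} (hg : PB g) (hh : PB h) : PB fun β => g β + h β := by
  obtain ⟨k, hk⟩ := hg
  obtain ⟨l, hl⟩ := hh
  refine ⟨max k l + 1, fun β => ?_⟩
  have h1 : ((β : ℝ) + 2) ^ k ≤ ((β : ℝ) + 2) ^ max k l :=
    pow_le_pow_right₀ (PB.base1 β) (le_max_left _ _)
  have h2 : ((β : ℝ) + 2) ^ l ≤ ((β : ℝ) + 2) ^ max k l :=
    pow_le_pow_right₀ (PB.base1 β) (le_max_right _ _)
  have h3 : (0 : ℝ) ≤ ((β : ℝ) + 2) ^ max k l := by
    have := PB.base1 β
    positivity
  have h4 := PB.base β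
  calc |g β + h β| ≤ |g β| + |h β| := abs_add_le _ _
    _ ≤ 2 * ((β : ℝ) + 2) ^ max k l := by
      have := hk β
      have := hl β
      linarith
    _ ≤ ((β : ℝ) + 2) ^ (max k l + 1) := by
      rw [pow_succ]
      nlinarith

theorem PB.mul {g h : ℕ → ℝ} (hg : PB g) (hh : PB h) : PB fun β => g β * h β := by
  obtain ⟨k, hk⟩ := hg
  obtain ⟨l, hl⟩ := hh
  refine ⟨k + l, fun β => ?_⟩
  rw [abs_mul, pow_add]
  have := PB.base1 β
  exact mul_le_mul (hk β) (hl β) (abs_nonneg _) (by positivity)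

theorem PB.pow {g : ℕ → ℝ} (hg : PB g) (m : ℕ) : PB fun β => g β ^ m := by
  induction m with
  | zero => simpa using PB.const 1
  | succ m ih =>
    simp only [pow_succ]
    exact ih.mul hg

theorem PB.nat_ceil {g : ℕ → ℝ} (hg : PB g) : PB fun β => ((⌈g β⌉₊ : ℕ) : ℝ) := by
  have h1 : PB fun β => |g β| + 1 := by
    obtain ⟨k, hk⟩ := hg
    exact (PB.mono (g := fun β => |g β|) ⟨k, fun β => hk β⟩ (fun β => by simp)).add (PB.const 1)
  refine h1.mono fun β => ?_
  rw [abs_of_nonneg (Nat.cast_nonneg _), abs_of_nonneg (by positivity)]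
  rcases le_or_gt 0 (g β) with h | h
  · exact (Nat.ceil_lt_add_one h).le.trans (by rw [abs_of_nonneg h])
  · rw [Nat.ceil_eq_zero.mpr h.le]
    simp only [Nat.cast_zero]
    positivity

/-- A product of forms which do not vanish identically. -/
theorem prod_forms {K : Type*} [Field K] {Ω W : Type*} [Nonempty Ω] (a : Ω → W → K)
    (ha : PrimeH a) {I : Type*} [Fintype I] (D : ℕ) (Φ : I → MvPolynomial W K)
    (h1 : ∀ i, (Φ i).IsHomogeneous D) (h2 : ∀ i, ¬ Van a (Φ i)) :
    (∏ i, Φ i).IsHomogeneous (Fintype.card I * D) ∧ ¬ Van a (∏ i, Φ i) := by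
  classical
  have key : ∀ s : Finset I, (∏ i ∈ s, Φ i).IsHomogeneous (s.card * D) ∧
      ¬ Van a (∏ i ∈ s, Φ i) := by
    intro s
    induction s using Finset.induction_on with
    | empty =>
      refine ⟨?_, ?_⟩
      · simp only [Finset.prod_empty, Finset.card_empty, zero_mul]
        exact isHomogeneous_one _ _
      · intro h
        obtain ⟨x⟩ := ‹Nonempty Ω›
        have := h x
        simp at this
    | insert i s hi ih =>
      rw [Finset.prod_insert hi, Finset.card_insert_of_notMem hi]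
      refine ⟨?_, ?_⟩
      · have := (h1 i).mul ih.1
        have e : D + s.card * D = (s.card + 1) * D := by ring
        rwa [e] at this
      · intro h
        rcases ha _ _ _ _ (h1 i) ih.1 h with h | h
        · exact h2 i h
        · exact ih.2 h
  exact key Finset.univ

theorem formsOn_finite {K : Type*} [Field K] {Ω W : Type*} [Finite W] (a : Ω → W → K) (k : ℕ) :
    FiniteDimensional K (formsOn a k) := by
  have h1 : homogeneousSubmodule W K k ≤ restrictTotalDegree W K k := by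
    intro P hP
    rw [mem_restrictTotalDegree]
    exact ((mem_homogeneousSubmodule k P).mp hP).totalDegree_le
  have : FiniteDimensional K (restrictTotalDegree W K k) := inferInstance
  have : FiniteDimensional K (homogeneousSubmodule W K k) :=
    Submodule.finiteDimensional_of_le h1
  unfold formsOn
  infer_instance

theorem hil_pos {K : Type*} [Field K] {Ω W : Type*} [Fintype W] [Nonempty Ω] (a : Ω → W → K)
    (ha0 : ∀ x, a x ≠ 0) (k : ℕ) : 0 < hil a k := by
  obtain ⟨x⟩ := ‹Nonempty Ω›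
  obtain ⟨w, hw⟩ := Function.ne_iff.mp (ha0 x)
  have h1 : (fun y : Ω => (a y w) ^ k) ∈ formsOn a k := by
    refine Submodule.mem_map.mpr ⟨X w ^ k, ?_, ?_⟩
    · rw [mem_homogeneousSubmodule]
      simpa using (isHomogeneous_X K w).pow k
    · funext y
      simp
  have hfin : FiniteDimensional K (formsOn a k) := formsOn_finite a k
  unfold hil
  rw [Module.finrank_pos_iff]
  refine ⟨⟨⟨_, h1⟩, 0, ?_⟩⟩
  intro h
  have h2 := congrFun (congrArg Subtype.val h) x
  exact pow_ne_zero k hw h2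

theorem LocF.comp {K : Type*} [Field K] {Ω Ω' W W' T : Type*} {a : Ω → W → K} {y : Ω → W' → K}
    {e : ℕ} {Y : T → W' → MvPolynomial W K} (h : LocF a y e Y) (j : Ω' → Ω) :
    LocF (fun x => a (j x)) (fun x => y (j x)) e Y :=
  ⟨h.1, fun t x => h.2.1 t (j x), fun x => h.2.2 (j x)⟩

end Pool.Agent.Helper63.SAND
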