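import Pool.Agent.Helper63.SAND.Defs

open MvPolynomial Filter Topology

namespace Pool.Agent.Helper63.SAND

variable {K : Type*} [Field K]

theorem van {S : Type*} (s : ℕ) (F : Fin s → S → K)
    (h : ∀ x : Fin s → S, (Matrix.of fun k j => F k (x j)).det = 0) :
    ∃ c : Fin s → K, c ≠ 0 ∧ ∀ x, ∑ k, c k * F k x = 0 := by
  classical
  set v : S → (Fin s → K) := fun x k => F k x with hv
  by_cases htop : Submodule.span K (Set.range v) = ⊤
  · exfalso
    obtain ⟨κ, a, -, hsp, hli⟩ := exists_linearIndependent' K v
    have hsp' : ⊤ ≤ Submodule.span K (Set.range (v ∘ a)) := by rw [hsp, htop]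
    let B := Module.Basis.mk hli hsp'
    haveI : Fintype κ := FiniteDimensional.fintypeBasisIndex B
    have hcard : Fintype.card κ = s := by
      have h1 := Module.finrank_eq_card_basis B
      rw [Module.finrank_fin_fun] at h1
      exact h1.symm
    let eqv : Fin s ≃ κ := (Fintype.equivFinOfCardEq hcard).symm
    have hli2 : LinearIndependent K (fun j : Fin s => v (a (eqv j))) :=
      hli.comp eqv eqv.injective
    have hu : IsUnit (Matrix.of fun k j => F k (a (eqv j)) : Matrix (Fin s) (Fin s) K) := by
      rw [← Matrix.linearIndependent_cols_iff_isUnit]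
      exact hli2
    have := (Matrix.isUnit_iff_isUnit_det _).1 hu
    rw [h] at this
    exact not_isUnit_zero this
  · obtain ⟨f, hf0, hf⟩ := Submodule.exists_le_ker_of_lt_top _ (lt_top_iff_ne_top.2 htop)
    refine ⟨fun k => f (Pi.single k 1), ?_, ?_⟩
    · intro hc
      apply hf0
      apply LinearMap.pi_ext'
      intro k
      ext
      simpa using congrFun hc k
    · intro x
      have h1 : f (v x) = 0 := hf (Submodule.subset_span ⟨x, rfl⟩)
      have h2 : v x = ∑ k, (v x k) • (Pi.single k (1 : K) : Fin s → K) := by
        ext l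
        simp [Finset.sum_apply, Pi.single_apply]
      rw [h2, map_sum] at h1
      simp only [map_smul, smul_eq_mul, hv] at h1
      rw [← h1]
      exact Finset.sum_congr rfl fun k _ => mul_comm _ _

end Pool.Agent.Helper63.SAND
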